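import Mathlib

/-!
# Collapsing a contractible subspace
-/

namespace Pool.Agent.Q19.WS

/-- If the subspace `A` of the compact space `X` can be contracted by a homotopy of `X`, then `X` is
homotopy equivalent to its quotient `W` obtained by shrinking `A` to a point. -/
theorem equiv_of_quot {X W : Type*} [TopologicalSpace X] [TopologicalSpace W] [CompactSpace X]
    [T2Space W] (q : C(X, W)) (hq : Function.Surjective q) (A : Set X)
    (hA : ∀ x x', q x = q x' → x = x' ∨ (x ∈ A ∧ x' ∈ A))
    (hA' : ∀ x ∈ A, ∀ x' ∈ A, q x = q x')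
    (H : C(unitInterval × X, X)) (h0 : ∀ x, H (0, x) = x) (hHA : ∀ t, ∀ x ∈ A, H (t, x) ∈ A)
    (h1 : ∀ x ∈ A, ∀ x' ∈ A, H (1, x) = H (1, x')) :
    Nonempty (ContinuousMap.HomotopyEquiv X W) := by
  have hqq : Topology.IsQuotientMap q := q.continuous.isClosedMap.isQuotientMap q.continuous hq
  set s : W → X := Function.surjInv hq with hs
  have hqs : ∀ w, q (s w) = w := Function.surjInv_eq hq
  have hcase : ∀ x, s (q x) = x ∨ (s (q x) ∈ A ∧ x ∈ A) := fun x => hA _ _ (hqs _)
  have hg : Continuous fun w => H (1, s w) := by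
    rw [hqq.continuous_iff]
    have : (fun w => H (1, s w)) ∘ q = fun x => H (1, x) := by
      funext x
      rcases hcase x with h | h
      · exact congrArg (fun y => H (1, y)) h
      · exact h1 _ h.1 _ h.2
    rw [this]
    fun_prop
  have hqI : Topology.IsQuotientMap (fun p : unitInterval × X => (p.1, q p.2)) := by
    have hc : Continuous (fun p : unitInterval × X => (p.1, q p.2)) := by fun_prop
    refine hc.isClosedMap.isQuotientMap hc ?_
    rintro ⟨t, w⟩
    exact ⟨(t, s w), Prod.ext rfl (hqs w)⟩
  have hG : Continuous fun p : unitInterval × W => q (H (p.1, s p.2)) := by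
    rw [hqI.continuous_iff]
    have : (fun p : unitInterval × W => q (H (p.1, s p.2))) ∘
        (fun p : unitInterval × X => (p.1, q p.2)) = fun p => q (H (p.1, p.2)) := by
      funext p
      rcases hcase p.2 with h | h
      · exact congrArg (fun y => q (H (p.1, y))) h
      · exact hA' _ (hHA _ _ h.1) _ (hHA _ _ h.2)
    rw [this]
    exact q.continuous.comp H.continuous
  refine ⟨⟨q, ⟨fun w => H (1, s w), hg⟩, ?_, ?_⟩⟩
  · refine ContinuousMap.Homotopic.symm ⟨⟨⟨fun p => H (p.1, p.2), H.continuous⟩, ?_, ?_⟩⟩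
    · intro x
      exact h0 x
    · intro x
      change H (1, x) = H (1, s (q x))
      rcases hcase x with h | h
      · rw [h]
      · exact h1 _ h.2 _ h.1
  · refine ContinuousMap.Homotopic.symm ⟨⟨⟨fun p => q (H (p.1, s p.2)), hG⟩, ?_, ?_⟩⟩
    · intro w
      change q (H (0, s w)) = w
      rw [h0, hqs]
    · intro w
      rfl

end Pool.Agent.Q19.WS
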