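import Mathlib

/-!
# The simplex with its boundary shrunk to a point
-/

namespace Pool.Agent.Q19.WS.Sph

variable {d : ℕ}

/-- the smallest coordinate -/
noncomputable def mn (t : Fin (d + 1) → ℝ) : ℝ := Finset.univ.inf' Finset.univ_nonempty t

theorem mn_le (t : Fin (d + 1) → ℝ) (j : Fin (d + 1)) : mn t ≤ t j :=
  Finset.inf'_le _ (Finset.mem_univ j)

theorem exists_mn (t : Fin (d + 1) → ℝ) : ∃ j, mn t = t j := by
  obtain ⟨j, _, h⟩ := Finset.exists_mem_eq_inf' Finset.univ_nonempty t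
  exact ⟨j, h⟩

theorem le_mn {t : Fin (d + 1) → ℝ} {a : ℝ} (h : ∀ j, a ≤ t j) : a ≤ mn t := by
  obtain ⟨j, hj⟩ := exists_mn t
  rw [hj]; exact h j

theorem continuous_mn : Continuous (mn : (Fin (d + 1) → ℝ) → ℝ) := by
  unfold mn
  exact Continuous.finset_inf'_apply _ (fun v _ => continuous_apply v)

/-- the missing mass -/
def dl (t : Fin (d + 1) → ℝ) : ℝ := 1 - ∑ j, t j

/-- sum of squares -/
noncomputable def sq (t : Fin (d + 1) → ℝ) : ℝ := ∑ j : Fin d, (t j.succ - 1 / (d + 1)) ^ 2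

/-- the denominator -/
noncomputable def dn (t : Fin (d + 1) → ℝ) : ℝ := sq t + dl t ^ 2 + mn t ^ 2

theorem sq_nonneg' (t : Fin (d + 1) → ℝ) : 0 ≤ sq t := Finset.sum_nonneg fun _ _ => sq_nonneg _

theorem dn_pos (t : Fin (d + 1) → ℝ) : 0 < dn t := by
  have h1 := sq_nonneg' t
  have h2 := sq_nonneg (dl t)
  have h3 := sq_nonneg (mn t)
  unfold dn
  by_contra hc
  push Not at hc
  have e1 : sq t = 0 := by linarith
  have e2 : dl t ^ 2 = 0 := by linarith
  have e3 : mn t ^ 2 = 0 := by linarith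
  have e2' : dl t = 0 := pow_eq_zero_iff (two_ne_zero) |>.1 e2
  have e3' : mn t = 0 := pow_eq_zero_iff (two_ne_zero) |>.1 e3
  have e4 : ∀ j : Fin d, t j.succ = 1 / (d + 1) := by
    intro j
    have := (Finset.sum_eq_zero_iff_of_nonneg (fun i _ => sq_nonneg _)).1 e1 j (Finset.mem_univ j)
    have := pow_eq_zero_iff (two_ne_zero) |>.1 this
    linarith
  have hd : (0 : ℝ) < d + 1 := by positivity
  have e5 : t 0 = 1 / (d + 1) := by
    have : ∑ j, t j = 1 := by unfold dl at e2'; linarith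
    rw [Fin.sum_univ_succ, Finset.sum_congr rfl (fun j _ => e4 j)] at this
    rw [Finset.sum_const, Finset.card_univ, Fintype.card_fin, nsmul_eq_mul] at this
    have h : t 0 = 1 - d * (1 / (d + 1)) := by linarith
    rw [h]; field_simp; ring
  obtain ⟨j, hj⟩ := exists_mn t
  rw [e3'] at hj
  have hpos : (0 : ℝ) < 1 / (d + 1) := by positivity
  rcases Fin.eq_zero_or_eq_succ j with h | ⟨i, h⟩
  · rw [h, e5] at hj; linarith
  · rw [h, e4] at hj; linarith

/-- the map -/
noncomputable def Q (t : Fin (d + 1) → ℝ) : Fin (d + 1) → ℝ :=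
  Fin.cons ((sq t + dl t ^ 2 - mn t ^ 2) / dn t)
    (fun j => 2 * mn t * (t j.succ - 1 / (d + 1)) / dn t)

theorem Q_zero (t : Fin (d + 1) → ℝ) : Q t 0 = (sq t + dl t ^ 2 - mn t ^ 2) / dn t := rfl

theorem Q_succ (t : Fin (d + 1) → ℝ) (j : Fin d) :
    Q t j.succ = 2 * mn t * (t j.succ - 1 / (d + 1)) / dn t := rfl

theorem continuous_Q : Continuous (Q : (Fin (d + 1) → ℝ) → (Fin (d + 1) → ℝ)) := by
  have h1 : Continuous (mn : (Fin (d + 1) → ℝ) → ℝ) := continuous_mn
  have h2 : Continuous (dl : (Fin (d + 1) → ℝ) → ℝ) := by unfold dl; fun_prop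
  have h3 : Continuous (sq : (Fin (d + 1) → ℝ) → ℝ) := by unfold sq; fun_prop
  have h4 : Continuous (dn : (Fin (d + 1) → ℝ) → ℝ) := by unfold dn; fun_prop
  refine continuous_pi fun j => ?_
  rcases Fin.eq_zero_or_eq_succ j with h | ⟨i, h⟩
  · subst h
    simp only [Q_zero]
    exact Continuous.div (by fun_prop) h4 fun t => (dn_pos t).ne'
  · subst h
    simp only [Q_succ]
    exact Continuous.div (by fun_prop) h4 fun t => (dn_pos t).ne'

theorem sum_Q {t : Fin (d + 1) → ℝ} (h : dl t * mn t = 0) : ∑ j, Q t j ^ 2 = 1 := by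
  have hd := dn_pos t
  rw [Fin.sum_univ_succ, Q_zero]
  simp only [Q_succ]
  have e : ∀ j : Fin d, (2 * mn t * (t j.succ - 1 / (d + 1)) / dn t) ^ 2 =
      (4 * mn t ^ 2 / dn t ^ 2) * (t j.succ - 1 / (d + 1)) ^ 2 := by
    intro j; field_simp; ring
  rw [Finset.sum_congr rfl (fun j _ => e j), ← Finset.mul_sum]
  change _ + 4 * mn t ^ 2 / dn t ^ 2 * sq t = 1
  rw [div_pow, div_mul_eq_mul_div, ← add_div, div_eq_one_iff_eq (pow_ne_zero 2 hd.ne')]
  unfold dn
  have h2 : dl t ^ 2 * mn t ^ 2 = 0 := by rw [← mul_pow, h]; simp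
  linear_combination (-4) * h2

theorem Q_of_mn_eq_zero {t : Fin (d + 1) → ℝ} (h : mn t = 0) : Q t = Pi.single 0 1 := by
  have hd := dn_pos t
  funext j
  rcases Fin.eq_zero_or_eq_succ j with hj | ⟨i, hj⟩
  · subst hj
    rw [Q_zero, Pi.single_eq_same, div_eq_one_iff_eq hd.ne', dn, h]
    ring
  · subst hj
    rw [Q_succ, h, Pi.single_eq_of_ne (Fin.succ_ne_zero i)]
    ring

theorem mn_eq_zero_of_Q {t : Fin (d + 1) → ℝ} (h : Q t = Pi.single 0 1) : mn t = 0 := by
  have hd := dn_pos t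
  have h0 := congrFun h 0
  rw [Q_zero, Pi.single_eq_same, div_eq_one_iff_eq hd.ne', dn] at h0
  have : mn t ^ 2 = 0 := by linarith
  exact pow_eq_zero_iff (two_ne_zero) |>.1 this

theorem Q_le {t t' : Fin (d + 1) → ℝ} (hm : 0 < mn t) (hm' : 0 < mn t') (hs : ∑ j, t j = 1)
    (hs' : ∑ j, t' j = 1) (h : Q t = Q t') : mn t' ≤ mn t ∧
      ∀ j, (t j - 1 / (d + 1)) / mn t = (t' j - 1 / (d + 1)) / mn t' := by
  have hd := dn_pos t
  have hd' := dn_pos t'
  have hdl : dl t = 0 := by unfold dl; linarith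
  have hdl' : dl t' = 0 := by unfold dl; linarith
  have key : ∀ {t : Fin (d + 1) → ℝ}, 0 < mn t → dl t = 0 → ∀ j : Fin d,
      Q t j.succ / (1 - Q t 0) = (t j.succ - 1 / (d + 1)) / mn t := by
    intro t hm hdl j
    have hd := dn_pos t
    rw [Q_zero, Q_succ]
    have e1 : 1 - (sq t + dl t ^ 2 - mn t ^ 2) / dn t = 2 * mn t ^ 2 / dn t := by
      rw [eq_div_iff hd.ne', sub_mul, div_mul_cancel₀ _ hd.ne', one_mul, dn]
      ring
    rw [e1]
    field_simp
  have hw : ∀ j : Fin d, (t j.succ - 1 / (d + 1)) / mn t = (t' j.succ - 1 / (d + 1)) / mn t' := by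
    intro j
    rw [← key hm hdl, ← key hm' hdl', h]
  have hdd : (0 : ℝ) < d + 1 := by positivity
  have hall : ∀ j, (t j - 1 / (d + 1)) / mn t = (t' j - 1 / (d + 1)) / mn t' := by
    intro j
    rcases Fin.eq_zero_or_eq_succ j with hj | ⟨i, hj⟩
    · subst hj
      have hsum : ∀ {t : Fin (d + 1) → ℝ}, ∑ j, t j = 1 →
          (t 0 - 1 / (d + 1)) / mn t = - ∑ j : Fin d, (t j.succ - 1 / (d + 1)) / mn t := by
        intro t hs
        rw [← Finset.sum_div, Finset.sum_sub_distrib, Finset.sum_const, Finset.card_univ,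
          Fintype.card_fin, nsmul_eq_mul, ← neg_div]
        rw [Fin.sum_univ_succ] at hs
        congr 1
        have : ∑ j : Fin d, t j.succ = 1 - t 0 := by linarith
        rw [this]
        field_simp
        ring
      rw [hsum hs, hsum hs', Finset.sum_congr rfl (fun j _ => hw j)]
    · subst hj; exact hw i
  refine ⟨?_, hall⟩
  obtain ⟨a, ha⟩ := exists_mn t
  have h1 := hall a
  rw [← ha] at h1
  have h2 := mn_le t' a
  have h3 : t' a - 1 / (d + 1) = mn t' * ((mn t - 1 / (d + 1)) / mn t) := by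
    rw [h1]; field_simp
  have h4 : mn t' * ((mn t - 1 / (d + 1)) / mn t) = mn t' - mn t' / mn t * (1 / (d + 1)) := by
    field_simp
  have h5 : mn t' / mn t * (1 / (d + 1)) ≤ 1 / (d + 1) := by linarith
  have hpos : (0 : ℝ) < 1 / (d + 1) := by positivity
  have h6 : mn t' / mn t ≤ 1 := by
    by_contra hc
    push Not at hc
    have := mul_lt_mul_of_pos_right hc hpos
    linarith
  rwa [div_le_one hm] at h6

theorem Q_inj {t t' : Fin (d + 1) → ℝ} (hm : 0 < mn t) (hm' : 0 < mn t') (hs : ∑ j, t j = 1)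
    (hs' : ∑ j, t' j = 1) (h : Q t = Q t') : t = t' := by
  obtain ⟨h1, h2⟩ := Q_le hm hm' hs hs' h
  obtain ⟨h3, _⟩ := Q_le hm' hm hs' hs h.symm
  have h4 : mn t = mn t' := le_antisymm h3 h1
  funext j
  have := h2 j
  rw [h4, div_left_inj' hm'.ne'] at this
  linarith

theorem Q_surj {z : Fin (d + 1) → ℝ} (hz : ∑ j, z j ^ 2 = 1) (hz0 : z ≠ Pi.single 0 1) :
    ∃ t : Fin (d + 1) → ℝ, 0 < mn t ∧ ∑ j, t j = 1 ∧ Q t = z := by
  have hsq : ∑ j : Fin d, z j.succ ^ 2 = 1 - z 0 ^ 2 := by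
    rw [Fin.sum_univ_succ] at hz; linarith
  have hz1 : z 0 < 1 := by
    have h1 : 0 ≤ ∑ j : Fin d, z j.succ ^ 2 := Finset.sum_nonneg fun _ _ => sq_nonneg _
    rw [hsq] at h1
    have h2 : z 0 ≤ 1 := by nlinarith
    rcases eq_or_lt_of_le h2 with h3 | h3
    · exfalso
      apply hz0
      rw [h3] at hsq
      have h4 : ∑ j : Fin d, z j.succ ^ 2 = 0 := by rw [hsq]; ring
      funext j
      rcases Fin.eq_zero_or_eq_succ j with hj | ⟨i, hj⟩
      · subst hj; rw [h3, Pi.single_eq_same]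
      · subst hj
        rw [Pi.single_eq_of_ne (Fin.succ_ne_zero i)]
        have := (Finset.sum_eq_zero_iff_of_nonneg (fun i _ => sq_nonneg _)).1 h4 i (Finset.mem_univ i)
        exact pow_eq_zero_iff (two_ne_zero) |>.1 this
    · exact h3
  have hz1' : 0 < 1 - z 0 := by linarith
  set w' : Fin d → ℝ := fun j => z j.succ / (1 - z 0) with hw'
  set w : Fin (d + 1) → ℝ := Fin.cons (- ∑ j, w' j) w' with hw
  have hws : ∑ j, w j = 0 := by
    rw [Fin.sum_univ_succ]
    simp [hw]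
  obtain ⟨a, ha⟩ := exists_mn w
  have hma : mn w ≤ 0 := by
    by_contra hc
    push Not at hc
    have : 0 < ∑ j, w j := Finset.sum_pos (fun j _ => hc.trans_le (mn_le w j)) Finset.univ_nonempty
    linarith
  have hdd : (0 : ℝ) < d + 1 := by positivity
  set μ : ℝ := 1 / ((d + 1) * (1 - mn w)) with hμ
  have h1m : 0 < 1 - mn w := by linarith
  have hμ0 : 0 < μ := by positivity
  have hc : 1 / ((d : ℝ) + 1) = μ * (1 - mn w) := by rw [hμ]; field_simp
  set t : Fin (d + 1) → ℝ := fun j => 1 / (d + 1) + μ * w j with ht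
  have hts : ∑ j, t j = 1 := by
    simp only [ht]
    rw [Finset.sum_add_distrib, ← Finset.mul_sum, hws, Finset.sum_const, Finset.card_univ,
      Fintype.card_fin, nsmul_eq_mul]
    push_cast
    field_simp
    ring
  have hmn : mn t = μ := by
    apply le_antisymm
    · have h1 := mn_le t a
      have h2 : t a = μ := by
        simp only [ht]
        rw [hc, ← ha]; ring
      linarith
    · refine le_mn fun j => ?_
      simp only [ht]
      rw [hc]
      have := mn_le w j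
      nlinarith
  refine ⟨t, by rw [hmn]; exact hμ0, hts, ?_⟩
  have hdl : dl t = 0 := by unfold dl; linarith
  have hsqt : sq t = μ ^ 2 * ((1 + z 0) / (1 - z 0)) := by
    unfold sq
    have e : ∀ j : Fin d, (t j.succ - 1 / (d + 1)) ^ 2 = μ ^ 2 / (1 - z 0) ^ 2 * z j.succ ^ 2 := by
      intro j
      simp only [ht, hw, Fin.cons_succ, hw']
      field_simp
      ring
    rw [Finset.sum_congr rfl (fun j _ => e j), ← Finset.mul_sum, hsq]
    field_simp
    ring
  have hdn : dn t = 2 * μ ^ 2 / (1 - z 0) := by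
    unfold dn
    rw [hsqt, hdl, hmn]
    field_simp
    ring
  funext j
  rcases Fin.eq_zero_or_eq_succ j with hj | ⟨i, hj⟩
  · subst hj
    rw [Q_zero, hdn, hsqt, hdl, hmn]
    field_simp
    ring
  · subst hj
    rw [Q_succ, hdn, hmn]
    simp only [ht, hw, Fin.cons_succ, hw']
    field_simp
    ring

end Pool.Agent.Q19.WS.Sph
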