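import Pool.Agent.Q19.WS.Reorg
import Pool.Agent.Q19.WS.Quot
import Pool.Agent.Q19.WS.Sph

/-!
# Attaching simplices of one dimension to a contractible complex
-/

namespace Pool.Agent.Q19.WS

open Sph (mn Q)

/-- the wedge of `m` spheres of dimension `d` -/
def Wedge (m d : ℕ) : Set (Fin m → Fin (d + 1) → ℝ) :=
  {y | (∀ i, ∑ j, y i j ^ 2 = 1) ∧
    ∀ i i', i ≠ i' → y i = Pi.single 0 1 ∨ y i' = Pi.single 0 1}

variable {V : Type*} [DecidableEq V] [Fintype V]

theorem Rl_compact {X : Set (Finset V)} (hX : Down X) : IsCompact (Rl X) := by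
  have e : Rl X = ⋃ τ ∈ X, ({x | ∀ v, 0 ≤ x v} ∩ {x | ∑ v, x v = 1} ∩ {x | ∀ v, v ∉ τ → x v = 0}) := by
    ext x
    simp only [Set.mem_iUnion, Set.mem_inter_iff, Set.mem_setOf_eq]
    constructor
    · rintro ⟨h0, h1, h2⟩
      refine ⟨supp x, h2, ⟨h0, h1⟩, ?_⟩
      intro v hv
      rw [mem_supp, not_not] at hv
      exact hv
    · rintro ⟨τ, hτ, ⟨h0, h1⟩, h2⟩
      refine ⟨h0, h1, hX τ hτ _ ?_⟩
      intro v hv
      rw [mem_supp] at hv
      by_contra hc
      exact hv (h2 v hc)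
  rw [e]
  refine Set.Finite.isCompact_biUnion (Set.toFinite X) ?_
  intro τ _
  refine IsCompact.of_isClosed_subset (isCompact_Icc (a := (0 : V → ℝ)) (b := 1)) ?_ ?_
  · refine ((isClosed_le continuous_const continuous_id).inter ?_).inter ?_
    · exact isClosed_eq (by fun_prop) continuous_const
    · have : {x : V → ℝ | ∀ v, v ∉ τ → x v = 0} = ⋂ v : V, {x : V → ℝ | v ∉ τ → x v = 0} := by
        ext x; simp
      rw [this]
      refine isClosed_iInter fun v => ?_
      by_cases hv : v ∈ τ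
      · simp [hv]
      · simp only [hv, not_false_eq_true, forall_true_left]
        exact isClosed_eq (continuous_apply v) continuous_const
  · rintro x ⟨⟨h0, h1⟩, _⟩
    refine ⟨h0, fun v => ?_⟩
    rw [Set.mem_setOf_eq] at h1
    change x v ≤ 1
    rw [← h1]
    exact Finset.single_le_sum (fun u _ => h0 u) (Finset.mem_univ v)

section Att

variable {C : Set (Finset V)} {m d : ℕ} (f : Fin m → Fin (d + 1) → V)

/-- the simplices -/
def sg (i : Fin m) : Finset V := Finset.univ.image (f i)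

/-- the complex -/
def Xc (C : Set (Finset V)) : Set (Finset V) := C ∪ Set.range (sg f)

/-- the assumptions -/
structure Ok (C : Set (Finset V)) : Prop where
  down : Down C
  inj : ∀ i, Function.Injective (f i)
  sginj : Function.Injective (sg f)
  notMem : ∀ i, sg f i ∉ C
  facet : ∀ i, ∀ w ∈ sg f i, (sg f i).erase w ∈ C

variable {f}

omit [Fintype V] in
theorem Ok.downX (h : Ok f C) : Down (Xc f C) := by
  rintro τ (hτ | ⟨i, rfl⟩) ρ hρ
  · exact Or.inl (h.down τ hτ ρ hρ)
  · by_cases he : ρ = sg f i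
    · exact Or.inr ⟨i, he.symm⟩
    obtain ⟨w, hw, hw'⟩ : ∃ w ∈ sg f i, w ∉ ρ := by
      by_contra hc
      push Not at hc
      exact he (Finset.Subset.antisymm hρ hc)
    left
    refine h.down _ (h.facet i w hw) ρ ?_
    intro a ha
    rw [Finset.mem_erase]
    exact ⟨fun h' => hw' (h' ▸ ha), hρ ha⟩

omit [Fintype V] in
theorem mem_sg {i : Fin m} {v : V} : v ∈ sg f i ↔ ∃ j, f i j = v := by
  unfold sg; simp

omit [Fintype V] in
theorem Ok.card (h : Ok f C) (i : Fin m) : (sg f i).card = d + 1 := by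
  unfold sg
  rw [Finset.card_image_of_injective _ (h.inj i), Finset.card_univ, Fintype.card_fin]

/-- the smallest coordinate on the simplex `i` -/
noncomputable def ms (f : Fin m → Fin (d + 1) → V) (i : Fin m) (x : V → ℝ) : ℝ := mn (x ∘ f i)

omit [DecidableEq V] [Fintype V] in
theorem continuous_ms (i : Fin m) : Continuous (ms f i) := by
  unfold ms
  exact Sph.continuous_mn.comp (by fun_prop)

omit [DecidableEq V] [Fintype V] in
theorem ms_nonneg {x : V → ℝ} (hx : ∀ v, 0 ≤ x v) (i : Fin m) : 0 ≤ ms f i x :=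
  Sph.le_mn fun j => hx _

theorem Ok.supp_eq (h : Ok f C) {x : V → ℝ} (hx : x ∈ Rl (Xc f C)) {i : Fin m}
    (hi : 0 < ms f i x) : supp x = sg f i := by
  have hsub : sg f i ⊆ supp x := by
    intro v hv
    rw [mem_sg] at hv
    obtain ⟨j, rfl⟩ := hv
    rw [mem_supp]
    exact (hi.trans_le (Sph.mn_le (x ∘ f i) j)).ne'
  rcases hx.2.2 with h' | ⟨j, hj⟩
  · exact absurd (h.down _ h' _ hsub) (h.notMem i)
  · rw [← hj] at hsub
    have := Finset.eq_of_subset_of_card_le hsub (by rw [h.card, h.card])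
    rw [← hj, this]

theorem Ok.ms_pos (h : Ok f C) {x : V → ℝ} (hx : x ∈ Rl (Xc f C)) {i : Fin m}
    (hi : supp x = sg f i) : 0 < ms f i x := by
  obtain ⟨j, hj⟩ := Sph.exists_mn (x ∘ f i)
  unfold ms
  rw [hj]
  refine lt_of_le_of_ne (hx.1 _) (Ne.symm ?_)
  have h1 : f i j ∈ supp x := by rw [hi, mem_sg]; exact ⟨j, rfl⟩
  have h2 : x (f i j) ≠ 0 := mem_supp.1 h1
  exact h2

theorem Ok.ms_other (h : Ok f C) {x : V → ℝ} (hx : x ∈ Rl (Xc f C)) {i j : Fin m}
    (hi : 0 < ms f i x) (hj : j ≠ i) : ms f j x = 0 := by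
  by_contra hc
  have h1 : 0 < ms f j x := lt_of_le_of_ne (ms_nonneg hx.1 j) (Ne.symm hc)
  exact hj (h.sginj ((h.supp_eq hx h1).symm.trans (h.supp_eq hx hi)))

theorem Ok.mem_C (h : Ok f C) {x : V → ℝ} (hx : x ∈ Rl (Xc f C)) :
    x ∈ Rl C ↔ ∀ i, ms f i x = 0 := by
  constructor
  · intro hxC i
    by_contra hc
    have h1 : 0 < ms f i x := lt_of_le_of_ne (ms_nonneg hx.1 i) (Ne.symm hc)
    exact h.notMem i ((h.supp_eq hx h1) ▸ hxC.2.2)
  · intro h0
    refine ⟨hx.1, hx.2.1, ?_⟩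
    rcases hx.2.2 with h' | ⟨j, hj⟩
    · exact h'
    · exact absurd (h0 j) (h.ms_pos hx hj.symm).ne'

theorem Ok.sum_sg (h : Ok f C) {x : V → ℝ} {i : Fin m} (hi : supp x ⊆ sg f i) :
    ∑ j, x (f i j) = ∑ v, x v := by
  have h1 : ∑ v ∈ sg f i, x v = ∑ j, x (f i j) := by
    unfold sg
    rw [Finset.sum_image (fun a _ b _ hab => h.inj i hab)]
  rw [← h1]
  refine Finset.sum_subset (Finset.subset_univ _) ?_
  intro v _ hv
  by_contra hc
  exact hv (hi (mem_supp.2 hc))

/-- indicator -/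
noncomputable def ind (f : Fin m → Fin (d + 1) → V) (i : Fin m) : V → ℝ :=
  fun v => if v ∈ sg f i then 1 else 0

/-- `λ` -/
noncomputable def la (f : Fin m → Fin (d + 1) → V) (x : V → ℝ) : ℝ := (d + 1) * ∑ i, ms f i x

/-- `u` -/
noncomputable def uu (f : Fin m → Fin (d + 1) → V) (x : V → ℝ) : V → ℝ :=
  fun v => x v - ∑ i, ms f i x * ind f i v

omit [DecidableEq V] [Fintype V] in
theorem continuous_la : Continuous (la f) := by
  unfold la
  have := fun i => continuous_ms (f := f) i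
  fun_prop

omit [Fintype V] in
theorem continuous_uu : Continuous (uu f) := by
  unfold uu
  have := fun i => continuous_ms (f := f) i
  fun_prop

/-- the first part of the homotopy -/
noncomputable def H1 (f : Fin m → Fin (d + 1) → V) (t : ℝ) (x : V → ℝ) : V → ℝ :=
  fun v => (2 * uu f x v + ∑ i, max 0 (2 * ms f i x - t / (d + 1)) * ind f i v) / (2 - t)

omit [Fintype V] in
theorem sum_ind (h : ∀ i, Function.Injective (f i)) [Fintype V] (i : Fin m) :
    ∑ v, ind f i v = d + 1 := by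
  unfold ind
  rw [Finset.sum_ite_mem, Finset.univ_inter, Finset.sum_const, nsmul_eq_mul, mul_one]
  unfold sg
  rw [Finset.card_image_of_injective _ (h i), Finset.card_univ, Fintype.card_fin]
  push_cast
  ring

omit [Fintype V] in
theorem Ok.la_zero (_h : Ok f C) {x : V → ℝ} (h0 : ∀ i, ms f i x = 0) : la f x = 0 := by
  unfold la
  simp [h0]

omit [Fintype V] in
theorem Ok.uu_zero (_h : Ok f C) {x : V → ℝ} (h0 : ∀ i, ms f i x = 0) : uu f x = x := by
  unfold uu
  simp [h0]

theorem Ok.la_pos (h : Ok f C) {x : V → ℝ} (hx : x ∈ Rl (Xc f C)) {i : Fin m}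
    (hi : 0 < ms f i x) : la f x = (d + 1) * ms f i x := by
  unfold la
  rw [Finset.sum_eq_single i (fun j _ hj => h.ms_other hx hi hj)
    (fun h' => absurd (Finset.mem_univ i) h')]

theorem Ok.uu_pos (h : Ok f C) {x : V → ℝ} (hx : x ∈ Rl (Xc f C)) {i : Fin m}
    (hi : 0 < ms f i x) (v : V) : uu f x v = x v - ms f i x * ind f i v := by
  unfold uu
  rw [Finset.sum_eq_single i (fun j _ hj => by rw [h.ms_other hx hi hj]; ring)
    (fun h' => absurd (Finset.mem_univ i) h')]

omit [Fintype V] in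
theorem Ok.H1_zero (_h : Ok f C) {x : V → ℝ} (hx : ∀ v, 0 ≤ x v) : H1 f 0 x = x := by
  funext v
  unfold H1 uu
  have : ∀ i, max 0 (2 * ms f i x - 0 / ((d : ℝ) + 1)) = 2 * ms f i x := by
    intro i
    rw [zero_div, sub_zero, max_eq_right]
    have := ms_nonneg (f := f) hx i
    linarith
  simp only [this]
  rw [mul_sub, Finset.mul_sum]
  have e : ∀ i, 2 * (ms f i x * ind f i v) = 2 * ms f i x * ind f i v := fun i => by ring
  simp only [e]
  ring

theorem Ok.H1_pos (h : Ok f C) {x : V → ℝ} (hx : x ∈ Rl (Xc f C)) {i : Fin m}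
    (hi : 0 < ms f i x) {t : ℝ} (ht0 : 0 ≤ t) (ht : t ≤ 2 * la f x) (v : V) :
    H1 f t x v = (2 * x v - t / (d + 1) * ind f i v) / (2 - t) := by
  have hd : (0 : ℝ) < d + 1 := by positivity
  unfold H1
  rw [h.uu_pos hx hi]
  rw [Finset.sum_eq_single i]
  · rw [max_eq_right]
    · ring
    · rw [h.la_pos hx hi] at ht
      have : t / (d + 1) ≤ 2 * ms f i x := by
        rw [div_le_iff₀ hd]; linarith
      linarith
  · intro j _ hj
    rw [h.ms_other hx hi hj, max_eq_left]
    · ring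
    · have : 0 ≤ t / ((d : ℝ) + 1) := by positivity
      linarith
  · intro h'; exact absurd (Finset.mem_univ i) h'

omit [Fintype V] in
theorem ind_eq_zero {i : Fin m} {v : V} (hv : v ∉ sg f i) : ind f i v = 0 := by
  unfold ind; rw [if_neg hv]

omit [Fintype V] in
theorem ind_eq_one {i : Fin m} {v : V} (hv : v ∈ sg f i) : ind f i v = 1 := by
  unfold ind; rw [if_pos hv]

theorem eq_zero_of_notMem {x : V → ℝ} {s : Finset V} (hs : supp x = s) {v : V} (hv : v ∉ s) :
    x v = 0 := by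
  by_contra hc
  exact hv (hs ▸ mem_supp.2 hc)

omit [Fintype V] in
theorem ms_le_of_mem {x : V → ℝ} {i : Fin m} {v : V} (hv : v ∈ sg f i) : ms f i x ≤ x v := by
  rw [mem_sg] at hv
  obtain ⟨j, rfl⟩ := hv
  exact Sph.mn_le (x ∘ f i) j

theorem Ok.H1_mem (h : Ok f C) {x : V → ℝ} (hx : x ∈ Rl (Xc f C)) {t : ℝ} (ht0 : 0 ≤ t)
    (ht1 : t ≤ 1) (ht : t ≤ 2 * la f x) : H1 f t x ∈ Rl (Xc f C) := by
  by_cases hz : ∀ i, ms f i x = 0
  · rw [h.la_zero hz] at ht
    have : t = 0 := by linarith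
    rw [this, h.H1_zero hx.1]
    exact hx
  · push Not at hz
    obtain ⟨i, hi⟩ := hz
    have hi' : 0 < ms f i x := lt_of_le_of_ne (ms_nonneg hx.1 i) (Ne.symm hi)
    have hd : (0 : ℝ) < d + 1 := by positivity
    have h2 : 0 < 2 - t := by linarith
    have hs := h.supp_eq hx hi'
    have hla := h.la_pos hx hi'
    refine ⟨?_, ?_, ?_⟩
    · intro v
      rw [h.H1_pos hx hi' ht0 ht]
      refine div_nonneg ?_ h2.le
      by_cases hv : v ∈ sg f i
      · rw [ind_eq_one hv, mul_one]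
        have h3 : ms f i x ≤ x v := ms_le_of_mem hv
        have : t / (d + 1) ≤ 2 * ms f i x := by
          rw [div_le_iff₀ hd]; rw [hla] at ht; linarith
        linarith
      · rw [ind_eq_zero hv, eq_zero_of_notMem hs hv]; simp
    · rw [Finset.sum_congr rfl (fun v _ => h.H1_pos hx hi' ht0 ht v), ← Finset.sum_div,
        Finset.sum_sub_distrib, ← Finset.mul_sum, ← Finset.mul_sum, hx.2.1, sum_ind h.inj]
      rw [div_mul_cancel₀ _ hd.ne', mul_one, div_self h2.ne']
    · refine h.downX _ (Or.inr ⟨i, rfl⟩) _ ?_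
      intro v hv
      rw [mem_supp] at hv
      by_contra hc
      apply hv
      rw [h.H1_pos hx hi' ht0 ht, ind_eq_zero hc, eq_zero_of_notMem hs hc]
      simp

/-- the point of `C` -/
noncomputable def yy (f : Fin m → Fin (d + 1) → V) (x : V → ℝ) : V → ℝ :=
  fun v => uu f x v / (1 - la f x)

theorem Ok.yy_zero (h : Ok f C) {x : V → ℝ} (h0 : ∀ i, ms f i x = 0) : yy f x = x := by
  funext v
  unfold yy
  rw [h.uu_zero h0, h.la_zero h0]
  simp

theorem Ok.yy_mem (h : Ok f C) {x : V → ℝ} (hx : x ∈ Rl (Xc f C)) (hl : la f x < 1) :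
    yy f x ∈ Rl C := by
  by_cases hz : ∀ i, ms f i x = 0
  · rw [h.yy_zero hz, h.mem_C hx]
    exact hz
  · push Not at hz
    obtain ⟨i, hi⟩ := hz
    have hi' : 0 < ms f i x := lt_of_le_of_ne (ms_nonneg hx.1 i) (Ne.symm hi)
    have hd : (0 : ℝ) < d + 1 := by positivity
    have h2 : 0 < 1 - la f x := by linarith
    have hs := h.supp_eq hx hi'
    have hla := h.la_pos hx hi'
    have hval : ∀ v, yy f x v = (x v - ms f i x * ind f i v) / (1 - la f x) := by
      intro v
      unfold yy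
      rw [h.uu_pos hx hi']
    refine ⟨?_, ?_, ?_⟩
    · intro v
      rw [hval]
      refine div_nonneg ?_ h2.le
      by_cases hv : v ∈ sg f i
      · rw [ind_eq_one hv, mul_one]
        have h3 : ms f i x ≤ x v := ms_le_of_mem hv
        linarith
      · rw [ind_eq_zero hv, eq_zero_of_notMem hs hv]; simp
    · rw [Finset.sum_congr rfl (fun v _ => hval v), ← Finset.sum_div,
        Finset.sum_sub_distrib, ← Finset.mul_sum, hx.2.1, sum_ind h.inj, hla]
      rw [hla] at h2
      rw [mul_comm (ms f i x), div_self h2.ne']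
    · obtain ⟨j, hj⟩ := Sph.exists_mn (x ∘ f i)
      have hjm : f i j ∈ sg f i := mem_sg.2 ⟨j, rfl⟩
      refine h.down _ (h.facet i (f i j) hjm) _ ?_
      intro v hv
      rw [mem_supp, hval] at hv
      rw [Finset.mem_erase]
      constructor
      · rintro rfl
        apply hv
        rw [ind_eq_one hjm, mul_one]
        unfold ms
        rw [hj]
        simp
      · by_contra hc
        apply hv
        rw [ind_eq_zero hc, eq_zero_of_notMem hs hc]
        simp

theorem Ok.H1_eq_yy (h : Ok f C) {x : V → ℝ} (hx : x ∈ Rl (Xc f C)) {t : ℝ} (ht0 : 0 ≤ t)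
    (ht1 : t ≤ 1) (ht : t = 2 * la f x) : H1 f t x = yy f x := by
  by_cases hz : ∀ i, ms f i x = 0
  · rw [h.la_zero hz, mul_zero] at ht
    rw [ht, h.H1_zero hx.1, h.yy_zero hz]
  · push Not at hz
    obtain ⟨i, hi⟩ := hz
    have hi' : 0 < ms f i x := lt_of_le_of_ne (ms_nonneg hx.1 i) (Ne.symm hi)
    have hd : (0 : ℝ) < d + 1 := by positivity
    have hla := h.la_pos hx hi'
    funext v
    rw [h.H1_pos hx hi' ht0 ht.le]
    unfold yy
    rw [h.uu_pos hx hi', ht, hla]
    have h2 : 0 < 1 - (d + 1) * ms f i x := by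
      rw [← hla]; linarith
    have h3 : 2 - 2 * ((d + 1) * ms f i x) = 2 * (1 - (d + 1) * ms f i x) := by ring
    rw [h3]
    field_simp

end Att

end Pool.Agent.Q19.WS
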