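import Mathlib

/-!
# Complexes built by matched pairs of simplices and critical simplices

A complex is a set of finite sets of vertices, the empty simplex included.
-/

namespace Pool.Agent.Q19.WS

variable {V : Type*} [DecidableEq V]

/-- The complex is built from the void complex by adding pairs of simplices `σ`, `σ ∪ {v}` (all other
facets of `σ ∪ {v}` being there already) and single simplices `σ` with `C |σ|` (all facets of `σ` being
there already). -/
inductive Bld (C : ℕ → Prop) : Set (Finset V) → Prop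
  | nil : Bld C ∅
  | pair (X : Set (Finset V)) (σ : Finset V) (v : V) : Bld C X → v ∉ σ → σ ∉ X →
      (∀ w ∈ σ, (insert v σ).erase w ∈ X) → Bld C (X ∪ {σ, insert v σ})
  | crit (X : Set (Finset V)) (σ : Finset V) : Bld C X → σ ∉ X → C σ.card →
      (∀ w ∈ σ, σ.erase w ∈ X) → Bld C (X ∪ {σ})

/-- closed under subsets -/
def Down (X : Set (Finset V)) : Prop := ∀ τ ∈ X, ∀ ρ ⊆ τ, ρ ∈ X

theorem Down.pair {X : Set (Finset V)} (hX : Down X) {σ : Finset V} {v : V} (hv : v ∉ σ)
    (hf : ∀ w ∈ σ, (insert v σ).erase w ∈ X) : Down (X ∪ {σ, insert v σ}) := by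
  have key : ∀ ρ ⊆ σ, ρ ∈ X ∪ {σ, insert v σ} := by
    intro ρ hρ
    by_cases h : ρ = σ
    · right; left; exact h
    · left
      obtain ⟨w, hw, hw'⟩ : ∃ w ∈ σ, w ∉ ρ := by
        by_contra hc
        push Not at hc
        exact h (Finset.Subset.antisymm hρ hc)
      refine hX _ (hf w hw) ρ ?_
      intro a ha
      rw [Finset.mem_erase]
      exact ⟨fun h' => hw' (h' ▸ ha), Finset.mem_insert_of_mem (hρ ha)⟩
  intro τ hτ ρ hρ
  rcases hτ with hτ | hτ | hτ
  · left; exact hX τ hτ ρ hρ
  · rw [hτ] at hρ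
    exact key ρ hρ
  · rw [Set.mem_singleton_iff] at hτ
    rw [hτ] at hρ
    by_cases h : ρ = insert v σ
    · right; right; exact h
    obtain ⟨w, hw, hw'⟩ : ∃ w ∈ insert v σ, w ∉ ρ := by
      by_contra hc
      push Not at hc
      exact h (Finset.Subset.antisymm hρ hc)
    have hsub : ρ ⊆ (insert v σ).erase w := by
      intro a ha
      rw [Finset.mem_erase]
      exact ⟨fun h' => hw' (h' ▸ ha), hρ ha⟩
    rw [Finset.mem_insert] at hw
    rcases hw with rfl | hw
    · rw [Finset.erase_insert hv] at hsub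
      exact key ρ hsub
    · left; exact hX _ (hf w hw) ρ hsub

theorem Down.crit {X : Set (Finset V)} (hX : Down X) {σ : Finset V}
    (hf : ∀ w ∈ σ, σ.erase w ∈ X) : Down (X ∪ {σ}) := by
  intro τ hτ ρ hρ
  rcases hτ with hτ | hτ
  · left; exact hX τ hτ ρ hρ
  · rw [Set.mem_singleton_iff] at hτ
    rw [hτ] at hρ
    by_cases h : ρ = σ
    · right; exact h
    obtain ⟨w, hw, hw'⟩ : ∃ w ∈ σ, w ∉ ρ := by
      by_contra hc
      push Not at hc
      exact h (Finset.Subset.antisymm hρ hc)
    left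
    refine hX _ (hf w hw) ρ ?_
    intro a ha
    rw [Finset.mem_erase]
    exact ⟨fun h' => hw' (h' ▸ ha), hρ ha⟩

theorem Bld.down {C : ℕ → Prop} {X : Set (Finset V)} (h : Bld C X) : Down X := by
  induction h with
  | nil => intro τ hτ; exact absurd hτ (Set.notMem_empty _)
  | pair X σ v _ hv _ hf ih => exact ih.pair hv hf
  | crit X σ _ _ _ hf ih => exact ih.crit hf

theorem Bld.mono {C C' : ℕ → Prop} (hC : ∀ n, C n → C' n) {X : Set (Finset V)} (h : Bld C X) :
    Bld C' X := by
  induction h with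
  | nil => exact Bld.nil
  | pair X σ v _ hv hσ hf ih => exact Bld.pair X σ v ih hv hσ hf
  | crit X σ _ hσ hc hf ih => exact Bld.crit X σ ih hσ (hC _ hc) hf

theorem Bld.pair' {C : ℕ → Prop} {X Y : Set (Finset V)} (σ : Finset V) (v : V) (h : Bld C X)
    (hv : v ∉ σ) (hσ : σ ∉ X) (hf : ∀ w ∈ σ, (insert v σ).erase w ∈ X)
    (hY : Y = X ∪ {σ, insert v σ}) : Bld C Y := hY ▸ Bld.pair X σ v h hv hσ hf

theorem Bld.crit' {C : ℕ → Prop} {X Y : Set (Finset V)} (σ : Finset V) (h : Bld C X)
    (hσ : σ ∉ X) (hc : C σ.card) (hf : ∀ w ∈ σ, σ.erase w ∈ X)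
    (hY : Y = X ∪ {σ}) : Bld C Y := hY ▸ Bld.crit X σ h hσ hc hf

/-- The complex is built by adding single simplices. -/
inductive Seq : Set (Finset V) → Prop
  | nil : Seq ∅
  | add (X : Set (Finset V)) (σ : Finset V) : Seq X → σ ∉ X → (∀ w ∈ σ, σ.erase w ∈ X) →
      Seq (X ∪ {σ})

theorem Seq.down {X : Set (Finset V)} (h : Seq X) : Down X := by
  induction h with
  | nil => intro τ hτ; exact absurd hτ (Set.notMem_empty _)
  | add X σ _ _ hf ih => exact ih.crit hf

theorem insert_notMem_of_down {X : Set (Finset V)} (hX : Down X) {σ : Finset V} (hσ : σ ∉ X)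
    (v : V) : insert v σ ∉ X := fun h => hσ (hX _ h _ (Finset.subset_insert v σ))

theorem Bld.seq {C : ℕ → Prop} {X : Set (Finset V)} (h : Bld C X) : Seq X := by
  induction h with
  | nil => exact Seq.nil
  | pair X σ v h hv hσ hf ih =>
    have h1 : Seq (X ∪ {σ}) := by
      refine Seq.add X σ ih hσ ?_
      intro w hw
      refine h.down _ (hf w hw) _ ?_
      exact Finset.erase_subset_erase w (Finset.subset_insert v σ)
    have h2 : Seq ((X ∪ {σ}) ∪ {insert v σ}) := by
      refine Seq.add _ _ h1 ?_ ?_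
      · rintro (h' | h')
        · exact insert_notMem_of_down h.down hσ v h'
        · rw [Set.mem_singleton_iff] at h'
          exact hv (h' ▸ Finset.mem_insert_self v σ)
      · intro w hw
        rw [Finset.mem_insert] at hw
        rcases hw with rfl | hw
        · rw [Finset.erase_insert hv]; right; rfl
        · left; exact hf w hw
    convert h2 using 1
    ext τ
    simp only [Set.mem_union, Set.mem_insert_iff, Set.mem_singleton_iff]
    tauto
  | crit X σ _ hσ _ hf ih => exact Seq.add X σ ih hσ hf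

theorem Seq.bld {X : Set (Finset V)} (h : Seq X) : Bld (fun _ => True) X := by
  induction h with
  | nil => exact Bld.nil
  | add X σ _ hσ hf ih => exact Bld.crit X σ ih hσ trivial hf

/-- no simplex contains the vertex `x` -/
def Free (x : V) (X : Set (Finset V)) : Prop := ∀ τ ∈ X, x ∉ τ

theorem erase_insert_comm {v w : V} (h : w ≠ v) (σ : Finset V) :
    (insert v σ).erase w = insert v (σ.erase w) := Finset.erase_insert_of_ne (fun h' => h h'.symm)

/-- Adding the cone over a subcomplex. -/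
theorem Bld.addCone {C C' : ℕ → Prop} (hC : ∀ n, C' n → C (n + 1)) {Y L : Set (Finset V)} {x : V}
    (hY : Bld C Y) (hx : Free x Y) (hL : Bld C' L) (hLY : L ⊆ Y) :
    Bld C (Y ∪ (insert x '' L)) := by
  induction hL with
  | nil => simpa using hY
  | pair X σ v h hv hσ hf ih =>
    have hXY : X ⊆ Y := fun τ hτ => hLY (Or.inl hτ)
    have hvs : insert v σ ∈ Y := hLY (Or.inr (Or.inr rfl))
    have hxv : x ∉ insert v σ := hx _ hvs
    have hxv' : x ≠ v := fun h' => hxv (h' ▸ Finset.mem_insert_self _ _)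
    have hxs : x ∉ σ := fun h' => hxv (Finset.mem_insert_of_mem h')
    refine Bld.pair' (insert x σ) v (ih hXY) ?_ ?_ ?_ ?_
    · rw [Finset.mem_insert]; rintro (h' | h')
      · exact hxv' h'.symm
      · exact hv h'
    · rintro (h' | ⟨τ, hτ, hτ'⟩)
      · exact hx _ h' (Finset.mem_insert_self _ _)
      · have : τ = σ := by
          have h1 : x ∉ τ := hx τ (hXY hτ)
          rw [← Finset.erase_insert h1, hτ', Finset.erase_insert hxs]
        exact hσ (this ▸ hτ)
    · intro w hw
      rw [Finset.mem_insert] at hw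
      by_cases hwx : w = x
      · subst hwx
        left
        rw [erase_insert_comm hxv', Finset.erase_insert hxs]
        exact hvs
      · have hw' : w ∈ σ := by tauto
        right
        refine ⟨(insert v σ).erase w, hf w hw', ?_⟩
        rw [Finset.insert_comm v x, erase_insert_comm hwx]
    · rw [Set.image_union, Set.image_pair, Finset.insert_comm v x, Set.union_assoc]
  | crit X σ h hσ hc hf ih =>
    have hXY : X ⊆ Y := fun τ hτ => hLY (Or.inl hτ)
    have hs : σ ∈ Y := hLY (Or.inr rfl)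
    have hxs : x ∉ σ := hx _ hs
    refine Bld.crit' (insert x σ) (ih hXY) ?_ ?_ ?_ ?_
    · rintro (h' | ⟨τ, hτ, hτ'⟩)
      · exact hx _ h' (Finset.mem_insert_self _ _)
      · have : τ = σ := by
          have h1 : x ∉ τ := hx τ (hXY hτ)
          rw [← Finset.erase_insert h1, hτ', Finset.erase_insert hxs]
        exact hσ (this ▸ hτ)
    · rw [Finset.card_insert_of_notMem hxs]; exact hC _ hc
    · intro w hw
      rw [Finset.mem_insert] at hw
      by_cases hwx : w = x
      · subst hwx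
        left
        rw [Finset.erase_insert hxs]
        exact hs
      · have hw' : w ∈ σ := by tauto
        right
        refine ⟨σ.erase w, hf w hw', ?_⟩
        rw [erase_insert_comm hwx]
    · rw [Set.image_union, Set.image_singleton, Set.union_assoc]

/-- The cone over a finite complex. -/
theorem Seq.cone {C : ℕ → Prop} {K : Set (Finset V)} {x : V} (hK : Seq K) (hx : Free x K) :
    Bld C (K ∪ (insert x '' K)) := by
  induction hK with
  | nil => simpa using (Bld.nil : Bld C (∅ : Set (Finset V)))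
  | add X σ h hσ hf ih =>
    have hX : Free x X := fun τ hτ => hx τ (Or.inl hτ)
    have hxs : x ∉ σ := hx σ (Or.inr rfl)
    refine Bld.pair' σ x (ih hX) hxs ?_ ?_ ?_
    · rintro (h' | ⟨τ, hτ, hτ'⟩)
      · exact hσ h'
      · exact hxs (hτ' ▸ Finset.mem_insert_self _ _)
    · intro w hw
      right
      refine ⟨σ.erase w, hf w hw, ?_⟩
      rw [erase_insert_comm]
      rintro rfl
      exact hxs hw
    · rw [Set.image_union, Set.image_singleton]
      ext τ
      simp only [Set.mem_union, Set.mem_insert_iff, Set.mem_singleton_iff]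
      tauto

/-- the join of two complexes -/
def join (K L : Set (Finset V)) : Set (Finset V) := {ρ | ∃ σ ∈ K, ∃ τ ∈ L, ρ = σ ∪ τ}

/-- The vertices of the two complexes are different. -/
def Sep (K L : Set (Finset V)) : Prop := ∀ σ ∈ K, ∀ τ ∈ L, Disjoint σ τ

theorem join_union (K L L' : Set (Finset V)) : join K (L ∪ L') = join K L ∪ join K L' := by
  ext ρ
  constructor
  · rintro ⟨σ, hσ, τ, hτ | hτ, rfl⟩
    · exact Or.inl ⟨σ, hσ, τ, hτ, rfl⟩
    · exact Or.inr ⟨σ, hσ, τ, hτ, rfl⟩
  · rintro (⟨σ, hσ, τ, hτ, rfl⟩ | ⟨σ, hσ, τ, hτ, rfl⟩)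
    · exact ⟨σ, hσ, τ, Or.inl hτ, rfl⟩
    · exact ⟨σ, hσ, τ, Or.inr hτ, rfl⟩

theorem union_join (K K' L : Set (Finset V)) : join (K ∪ K') L = join K L ∪ join K' L := by
  ext ρ
  constructor
  · rintro ⟨σ, hσ | hσ, τ, hτ, rfl⟩
    · exact Or.inl ⟨σ, hσ, τ, hτ, rfl⟩
    · exact Or.inr ⟨σ, hσ, τ, hτ, rfl⟩
  · rintro (⟨σ, hσ, τ, hτ, rfl⟩ | ⟨σ, hσ, τ, hτ, rfl⟩)
    · exact ⟨σ, Or.inl hσ, τ, hτ, rfl⟩
    · exact ⟨σ, Or.inr hσ, τ, hτ, rfl⟩

theorem join_singleton (K : Set (Finset V)) (τ : Finset V) :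
    join K {τ} = (fun σ => σ ∪ τ) '' K := by
  ext ρ
  constructor
  · rintro ⟨σ, hσ, τ', hτ', rfl⟩
    rw [Set.mem_singleton_iff] at hτ'
    exact ⟨σ, hσ, by rw [hτ']⟩
  · rintro ⟨σ, hσ, rfl⟩
    exact ⟨σ, hσ, τ, rfl, rfl⟩

theorem join_empty (K : Set (Finset V)) : join K ∅ = ∅ := by
  ext ρ
  constructor
  · rintro ⟨σ, hσ, τ, hτ, rfl⟩
    exact absurd hτ (Set.notMem_empty _)
  · intro h; exact absurd h (Set.notMem_empty _)

theorem empty_join (K : Set (Finset V)) : join ∅ K = ∅ := by
  ext ρ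
  constructor
  · rintro ⟨σ, hσ, τ, hτ, rfl⟩
    exact absurd hσ (Set.notMem_empty _)
  · intro h; exact absurd h (Set.notMem_empty _)

end Pool.Agent.Q19.WS
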