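import Pool.Agent.Q19.WS.Join

/-!
# Order complexes
-/

namespace Pool.Agent.Q19.WS

variable {P : Type*} [PartialOrder P] [DecidableEq P]

/-- the finite chains in the set `S`, the empty chain included -/
def Ch (S : Set P) : Set (Finset P) :=
  {c | (∀ a ∈ c, a ∈ S) ∧ ∀ a ∈ c, ∀ b ∈ c, a ≤ b ∨ b ≤ a}

theorem Ch_mono {S T : Set P} (h : S ⊆ T) : Ch S ⊆ Ch T :=
  fun _ hc => ⟨fun a ha => h (hc.1 a ha), hc.2⟩

theorem Ch_empty : Ch (∅ : Set P) = {∅} := by
  ext c
  rw [Set.mem_singleton_iff]
  constructor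
  · intro h
    exact Finset.eq_empty_of_forall_notMem fun a ha => Set.notMem_empty _ (h.1 a ha)
  · rintro rfl
    exact ⟨fun a ha => absurd ha (Finset.notMem_empty _), fun a ha => absurd ha (Finset.notMem_empty _)⟩

theorem Ch_down (S : Set P) : Down (Ch S) :=
  fun _ hc _ hd => ⟨fun a ha => hc.1 a (hd ha), fun a ha b hb => hc.2 a (hd ha) b (hd hb)⟩

theorem Ch_insert {S : Set P} {x : P} :
    Ch (insert x S) = Ch S ∪ insert x '' (Ch {y ∈ S | y < x ∨ x < y}) := by
  ext c
  constructor
  · intro h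
    by_cases hx : x ∈ c
    · right
      refine ⟨c.erase x, ⟨?_, ?_⟩, Finset.insert_erase hx⟩
      · intro a ha
        rw [Finset.mem_erase] at ha
        refine ⟨?_, ?_⟩
        · rcases h.1 a ha.2 with h' | h'
          · exact absurd h' ha.1
          · exact h'
        · rcases h.2 a ha.2 x hx with h' | h'
          · left; exact lt_of_le_of_ne h' ha.1
          · right; exact lt_of_le_of_ne h' (Ne.symm ha.1)
      · intro a ha b hb
        exact h.2 a (Finset.mem_of_mem_erase ha) b (Finset.mem_of_mem_erase hb)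
    · left
      refine ⟨?_, h.2⟩
      intro a ha
      rcases h.1 a ha with h' | h'
      · exact absurd (h' ▸ ha) hx
      · exact h'
  · rintro (h | ⟨d, hd, rfl⟩)
    · exact ⟨fun a ha => Or.inr (h.1 a ha), h.2⟩
    · constructor
      · intro a ha
        rw [Finset.mem_insert] at ha
        rcases ha with rfl | ha
        · exact Or.inl rfl
        · exact Or.inr (hd.1 a ha).1
      · intro a ha b hb
        rw [Finset.mem_insert] at ha hb
        rcases ha with rfl | ha
        · rcases hb with rfl | hb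
          · exact Or.inl le_rfl
          · rcases (hd.1 b hb).2 with h' | h'
            · exact Or.inr h'.le
            · exact Or.inl h'.le
        · rcases hb with rfl | hb
          · rcases (hd.1 a ha).2 with h' | h'
            · exact Or.inl h'.le
            · exact Or.inr h'.le
          · exact hd.2 a ha b hb

theorem Ch_link (S : Set P) (x : P) :
    Ch {y ∈ S | y < x ∨ x < y} = join (Ch {y ∈ S | y < x}) (Ch {y ∈ S | x < y}) := by
  classical
  ext c
  constructor
  · intro h
    refine ⟨c.filter (fun y => y < x), ⟨?_, ?_⟩, c.filter (fun y => x < y), ⟨?_, ?_⟩, ?_⟩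
    · intro a ha
      rw [Finset.mem_filter] at ha
      exact ⟨(h.1 a ha.1).1, ha.2⟩
    · intro a ha b hb
      rw [Finset.mem_filter] at ha hb
      exact h.2 a ha.1 b hb.1
    · intro a ha
      rw [Finset.mem_filter] at ha
      exact ⟨(h.1 a ha.1).1, ha.2⟩
    · intro a ha b hb
      rw [Finset.mem_filter] at ha hb
      exact h.2 a ha.1 b hb.1
    · ext a
      rw [Finset.mem_union, Finset.mem_filter, Finset.mem_filter]
      constructor
      · intro ha
        rcases (h.1 a ha).2 with h' | h'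
        · exact Or.inl ⟨ha, h'⟩
        · exact Or.inr ⟨ha, h'⟩
      · rintro (h' | h') <;> exact h'.1
  · rintro ⟨σ, hσ, τ, hτ, rfl⟩
    constructor
    · intro a ha
      rw [Finset.mem_union] at ha
      rcases ha with ha | ha
      · exact ⟨(hσ.1 a ha).1, Or.inl (hσ.1 a ha).2⟩
      · exact ⟨(hτ.1 a ha).1, Or.inr (hτ.1 a ha).2⟩
    · intro a ha b hb
      rw [Finset.mem_union] at ha hb
      rcases ha with ha | ha
      · rcases hb with hb | hb
        · exact hσ.2 a ha b hb
        · exact Or.inl ((hσ.1 a ha).2.trans (hτ.1 b hb).2).le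
      · rcases hb with hb | hb
        · exact Or.inr ((hσ.1 b hb).2.trans (hτ.1 a ha).2).le
        · exact hτ.2 a ha b hb

theorem Ch_sep (S : Set P) (x : P) : Sep (Ch {y ∈ S | y < x}) (Ch {y ∈ S | x < y}) := by
  intro σ hσ τ hτ
  rw [Finset.disjoint_left]
  intro a ha ha'
  exact lt_irrefl _ ((hσ.1 a ha).2.trans (hτ.1 a ha').2)

/-- Adding an element to a poset. -/
theorem Bld.add {C C₁ C₂ : ℕ → Prop} {S : Set P} {x : P} (hx : x ∉ S) (h : Bld C (Ch S))
    (h1 : Bld C₁ (Ch {y ∈ S | y < x})) (h2 : Bld C₂ (Ch {y ∈ S | x < y}))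
    (hC : ∀ a b, C₁ a → C₂ b → C (a + b + 1)) : Bld C (Ch (insert x S)) := by
  rw [Ch_insert]
  refine Bld.addCone (C' := fun n => ∃ a b, C₁ a ∧ C₂ b ∧ n = a + b) ?_ h ?_ ?_ ?_
  · rintro n ⟨a, b, ha, hb, rfl⟩
    exact hC a b ha hb
  · intro c hc hxc
    exact hx (hc.1 x hxc)
  · rw [Ch_link]
    exact Bld.join h1 h2 (Ch_sep S x) fun a b ha hb => ⟨a, b, ha, hb, rfl⟩
  · exact Ch_mono fun y hy => hy.1

theorem Ch_seq {S : Set P} (hS : S.Finite) : Seq (Ch S) := by
  have key : ∀ n : ℕ, ∀ S : Set P, S.Finite → S.ncard = n → Bld (fun _ => True) (Ch S) := by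
    intro n
    induction n using Nat.strong_induction_on with
    | _ n ih =>
      intro S hS hn
      by_cases hne : S.Nonempty
      · obtain ⟨x, hx⟩ := hne
        have hS' : (S \ {x}).Finite := hS.subset Set.diff_subset
        have hlt : (S \ {x}).ncard < n := by
          rw [← hn]
          exact Set.ncard_diff_singleton_lt_of_mem hx hS
        have e : S = insert x (S \ {x}) := (Set.insert_diff_singleton.trans (Set.insert_eq_of_mem hx)).symm
        rw [e]
        refine Bld.add (C₁ := fun _ => True) (C₂ := fun _ => True) (fun h => h.2 rfl)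
          (ih _ hlt _ hS' rfl) ?_ ?_ (fun _ _ _ _ => trivial)
        · refine ih _ (lt_of_le_of_lt (Set.ncard_le_ncard (fun y hy => hy.1) hS') hlt) _
            (hS'.subset fun y hy => hy.1) rfl
        · refine ih _ (lt_of_le_of_lt (Set.ncard_le_ncard (fun y hy => hy.1) hS') hlt) _
            (hS'.subset fun y hy => hy.1) rfl
      · rw [Set.not_nonempty_iff_eq_empty] at hne
        rw [hne, Ch_empty]
        exact Bld.crit' ∅ Bld.nil (Set.notMem_empty _) trivial (by simp) (by simp)
  exact (key _ S hS rfl).seq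

theorem Bld.chTrue {S : Set P} (hS : S.Finite) : Bld (fun _ => True) (Ch S) := (Ch_seq hS).bld

/-- A cone. -/
theorem Bld.cone {C : ℕ → Prop} {S : Set P} (hS : S.Finite) {x : P} (hx : x ∈ S)
    (hc : ∀ y ∈ S, y ≤ x ∨ x ≤ y) : Bld C (Ch S) := by
  have e : S = insert x (S \ {x}) := (Set.insert_diff_singleton.trans (Set.insert_eq_of_mem hx)).symm
  rw [e, Ch_insert]
  have e2 : {y ∈ S \ {x} | y < x ∨ x < y} = S \ {x} := by
    ext y
    constructor
    · exact fun h => h.1
    · intro h
      refine ⟨h, ?_⟩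
      rcases hc y h.1 with h' | h'
      · exact Or.inl (lt_of_le_of_ne h' h.2)
      · exact Or.inr (lt_of_le_of_ne h' (Ne.symm h.2))
  rw [e2]
  exact Seq.cone (Ch_seq (hS.subset Set.diff_subset)) fun c hc' hxc => (hc'.1 x hxc).2 rfl

theorem Bld.chEmpty {C : ℕ → Prop} (h : C 0) : Bld C (Ch (∅ : Set P)) := by
  rw [Ch_empty]
  exact Bld.crit' ∅ Bld.nil (Set.notMem_empty _) h (by simp) (by simp)

/-- The operator `g y ≤ y`. -/
theorem Bld.interior {C : ℕ → Prop} {S : Set P} (hS : S.Finite) (g : P → P)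
    (hg : ∀ y ∈ S, g y ∈ S) (hle : ∀ y ∈ S, g y ≤ y)
    (hmono : ∀ y ∈ S, ∀ z ∈ S, y ≤ z → g y ≤ g z) (hid : ∀ y ∈ S, g (g y) = g y)
    (h : Bld C (Ch {y ∈ S | g y = y})) : Bld C (Ch S) := by
  have key : ∀ (n : ℕ) (N : Set P), N ⊆ {y ∈ S | g y ≠ y} →
      (∀ y ∈ N, ∀ z ∈ {y ∈ S | g y ≠ y}, y ≤ z → z ∈ N) → N.ncard = n →
      Bld C (Ch ({y ∈ S | g y = y} ∪ N)) := by
    intro n
    induction n with
    | zero =>
      intro N hN _ hn
      have hf : N.Finite := hS.subset fun y hy => (hN hy).1
      rw [(Set.ncard_eq_zero hf).1 hn, Set.union_empty]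
      exact h
    | succ n ih =>
      intro N hN hup hn
      have hf : N.Finite := hS.subset fun y hy => (hN hy).1
      have hne : N.Nonempty := by
        rw [Set.nonempty_iff_ne_empty]
        rintro rfl
        simp at hn
      obtain ⟨y, hy⟩ := hf.exists_minimal hne
      have hyN := hy.prop
      have hyS := (hN hyN).1
      have e : {y ∈ S | g y = y} ∪ N = insert y ({y ∈ S | g y = y} ∪ (N \ {y})) := by
        ext z
        simp only [Set.mem_union, Set.mem_insert_iff, Set.mem_diff, Set.mem_singleton_iff]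
        by_cases hz : z = y
        · subst hz; simp [hyN]
        · simp [hz]
      rw [e]
      refine Bld.add (C₁ := fun _ => False) (C₂ := fun _ => True) ?_ ?_ ?_ ?_
        (fun _ _ h' _ => absurd h' not_false)
      · rintro (h' | h')
        · exact (hN hyN).2 h'.2
        · exact h'.2 rfl
      · refine ih (N \ {y}) (fun z hz => hN hz.1) ?_ ?_
        · intro z hz w hw hzw
          refine ⟨hup z hz.1 w hw hzw, ?_⟩
          intro (hwy : w = y)
          subst hwy
          exact hz.2 (le_antisymm hzw (hy.le_of_le hz.1 hzw))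
        · rw [Set.ncard_diff_singleton_of_mem hyN, hn]; rfl
      · refine Bld.cone ?_ (x := g y) ?_ ?_
        · refine hS.subset ?_
          rintro z ⟨hz | hz, _⟩
          · exact hz.1
          · exact (hN hz.1).1
        · refine ⟨Or.inl ⟨hg y hyS, hid y hyS⟩, lt_of_le_of_ne (hle y hyS) (hN hyN).2⟩
        · rintro z ⟨hz | hz, hzy⟩
          · left
            rw [← hz.2]
            exact hmono z hz.1 y hyS hzy.le
          · exact absurd (hy.le_of_le hz.1 hzy.le) (not_le_of_gt hzy)
      · refine Bld.chTrue (hS.subset ?_)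
        rintro z ⟨hz | hz, _⟩
        · exact hz.1
        · exact (hN hz.1).1
  have := key _ {y ∈ S | g y ≠ y} subset_rfl (fun _ _ z hz _ => hz) rfl
  have e : {y ∈ S | g y = y} ∪ {y ∈ S | g y ≠ y} = S := by
    ext z
    simp only [Set.mem_union, Set.mem_setOf_eq]
    tauto
  rwa [e] at this

/-- The operator `y ≤ g y`. -/
theorem Bld.closure {C : ℕ → Prop} {S : Set P} (hS : S.Finite) (g : P → P)
    (hg : ∀ y ∈ S, g y ∈ S) (hle : ∀ y ∈ S, y ≤ g y)
    (hmono : ∀ y ∈ S, ∀ z ∈ S, y ≤ z → g y ≤ g z) (hid : ∀ y ∈ S, g (g y) = g y)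
    (h : Bld C (Ch {y ∈ S | g y = y})) : Bld C (Ch S) := by
  have key : ∀ (n : ℕ) (N : Set P), N ⊆ {y ∈ S | g y ≠ y} →
      (∀ y ∈ N, ∀ z ∈ {y ∈ S | g y ≠ y}, z ≤ y → z ∈ N) → N.ncard = n →
      Bld C (Ch ({y ∈ S | g y = y} ∪ N)) := by
    intro n
    induction n with
    | zero =>
      intro N hN _ hn
      have hf : N.Finite := hS.subset fun y hy => (hN hy).1
      rw [(Set.ncard_eq_zero hf).1 hn, Set.union_empty]
      exact h
    | succ n ih =>
      intro N hN hup hn
      have hf : N.Finite := hS.subset fun y hy => (hN hy).1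
      have hne : N.Nonempty := by
        rw [Set.nonempty_iff_ne_empty]
        rintro rfl
        simp at hn
      obtain ⟨y, hy⟩ := hf.exists_maximal hne
      have hyN := hy.prop
      have hyS := (hN hyN).1
      have e : {y ∈ S | g y = y} ∪ N = insert y ({y ∈ S | g y = y} ∪ (N \ {y})) := by
        ext z
        simp only [Set.mem_union, Set.mem_insert_iff, Set.mem_diff, Set.mem_singleton_iff]
        by_cases hz : z = y
        · subst hz; simp [hyN]
        · simp [hz]
      rw [e]
      refine Bld.add (C₁ := fun _ => True) (C₂ := fun _ => False) ?_ ?_ ?_ ?_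
        (fun _ _ _ h' => absurd h' not_false)
      · rintro (h' | h')
        · exact (hN hyN).2 h'.2
        · exact h'.2 rfl
      · refine ih (N \ {y}) (fun z hz => hN hz.1) ?_ ?_
        · intro z hz w hw hzw
          refine ⟨hup z hz.1 w hw hzw, ?_⟩
          intro (hwy : w = y)
          subst hwy
          exact hz.2 (le_antisymm (hy.le_of_ge hz.1 hzw) hzw)
        · rw [Set.ncard_diff_singleton_of_mem hyN, hn]; rfl
      · refine Bld.chTrue (hS.subset ?_)
        rintro z ⟨hz | hz, _⟩
        · exact hz.1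
        · exact (hN hz.1).1
      · refine Bld.cone ?_ (x := g y) ?_ ?_
        · refine hS.subset ?_
          rintro z ⟨hz | hz, _⟩
          · exact hz.1
          · exact (hN hz.1).1
        · refine ⟨Or.inl ⟨hg y hyS, hid y hyS⟩, lt_of_le_of_ne (hle y hyS) (Ne.symm (hN hyN).2)⟩
        · rintro z ⟨hz | hz, hzy⟩
          · right
            rw [← hz.2]
            exact hmono y hyS z hz.1 hzy.le
          · exact absurd (hy.le_of_ge hz.1 hzy.le) (not_le_of_gt hzy)
  have := key _ {y ∈ S | g y ≠ y} subset_rfl (fun _ _ z hz _ => hz) rfl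
  have e : {y ∈ S | g y = y} ∪ {y ∈ S | g y ≠ y} = S := by
    ext z
    simp only [Set.mem_union, Set.mem_setOf_eq]
    tauto
  rwa [e] at this

end Pool.Agent.Q19.WS
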