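import Pool.Agent.Q19.WS.Bld

/-!
# Joins of complexes
-/

namespace Pool.Agent.Q19.WS

variable {V : Type*} [DecidableEq V]

theorem union_inj {σ σ' τ τ' : Finset V} (h1 : Disjoint σ τ') (h2 : Disjoint σ' τ)
    (h3 : Disjoint σ τ) (h4 : Disjoint σ' τ')
    (h : σ ∪ τ = σ' ∪ τ') : σ = σ' ∧ τ = τ' := by
  rw [Finset.disjoint_left] at h1 h2 h3 h4
  rw [Finset.ext_iff] at h
  simp only [Finset.mem_union] at h
  constructor
  · ext a
    have := h a; have := @h1 a; have := @h2 a; have := @h3 a; have := @h4 a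
    tauto
  · ext a
    have := h a; have := @h1 a; have := @h2 a; have := @h3 a; have := @h4 a
    tauto

theorem join_mono {K K' L L' : Set (Finset V)} (h : K ⊆ K') (h' : L ⊆ L') :
    join K L ⊆ join K' L' := by
  rintro ρ ⟨σ, hσ, τ, hτ, rfl⟩
  exact ⟨σ, h hσ, τ, h' hτ, rfl⟩

theorem join_pairAux {C : ℕ → Prop} {K L : Set (Finset V)} {τ : Finset V} {v : V}
    (hs : Sep K (L ∪ {τ, insert v τ})) (hv : v ∉ τ) (hτ : τ ∉ L)
    (hf : ∀ w ∈ τ, (insert v τ).erase w ∈ L) (hL : Bld C (join K L))
    {K' : Set (Finset V)} (hK' : Seq K') (hsub : K' ⊆ K) :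
    Bld C (join K L ∪ join K' {τ, insert v τ}) := by
  induction hK' with
  | nil => rw [empty_join, Set.union_empty]; exact hL
  | add X σ h hσ hfσ ih =>
    have hXK : X ⊆ K := fun ρ hρ => hsub (Or.inl hρ)
    have hσK : σ ∈ K := hsub (Or.inr rfl)
    have hd1 : Disjoint σ (insert v τ) := hs σ hσK _ (Or.inr (Or.inr rfl))
    have hd2 : Disjoint σ τ := hs σ hσK _ (Or.inr (Or.inl rfl))
    have hvσ : v ∉ σ := fun h' => (Finset.disjoint_left.1 hd1 h') (Finset.mem_insert_self _ _)
    refine Bld.pair' (σ ∪ τ) v (ih hXK) ?_ ?_ ?_ ?_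
    · rw [Finset.mem_union]; tauto
    · rintro (⟨σ', hσ', τ', hτ', he⟩ | ⟨σ', hσ', τ', hτ', he⟩)
      · have := union_inj (hs σ hσK τ' (Or.inl hτ')) (hs σ' hσ' τ (Or.inr (Or.inl rfl))) hd2
          (hs σ' hσ' τ' (Or.inl hτ')) he
        exact hτ (this.2 ▸ hτ')
      · have := union_inj (hs σ hσK τ' (Or.inr hτ')) (hs σ' (hXK hσ') τ (Or.inr (Or.inl rfl))) hd2
          (hs σ' (hXK hσ') τ' (Or.inr hτ')) he
        exact hσ (this.1 ▸ hσ')
    · intro w hw
      rw [Finset.mem_union] at hw
      rcases hw with hw | hw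
      · right
        refine ⟨σ.erase w, hfσ w hw, insert v τ, Or.inr rfl, ?_⟩
        have hwτ : w ∉ insert v τ := Finset.disjoint_left.1 hd1 hw
        rw [← Finset.union_insert]
        ext a
        simp only [Finset.mem_erase, Finset.mem_union]
        constructor
        · tauto
        · rintro (h' | h')
          · exact ⟨h'.1, Or.inl h'.2⟩
          · exact ⟨fun h'' => hwτ (h'' ▸ h'), Or.inr h'⟩
      · left
        refine ⟨σ, hσK, (insert v τ).erase w, hf w hw, ?_⟩
        have hwσ : w ∉ σ := Finset.disjoint_right.1 hd2 hw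
        rw [← Finset.union_insert]
        ext a
        simp only [Finset.mem_erase, Finset.mem_union]
        constructor
        · tauto
        · rintro (h' | h')
          · exact ⟨fun h'' => hwσ (h'' ▸ h'), Or.inl h'⟩
          · exact ⟨h'.1, Or.inr h'.2⟩
    · rw [union_join, Set.union_assoc]
      congr 2
      ext ρ
      constructor
      · rintro ⟨σ', hσ', τ', hτ' | hτ', rfl⟩
        · rw [Set.mem_singleton_iff] at hσ'
          subst hσ'
          subst hτ'
          left; rfl
        · rw [Set.mem_singleton_iff] at hσ' hτ'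
          subst hσ'
          subst hτ'
          right
          rw [Set.mem_singleton_iff, Finset.union_insert]
      · rintro (h' | h')
        · exact ⟨σ, rfl, τ, Or.inl rfl, h'⟩
        · rw [Set.mem_singleton_iff] at h'
          refine ⟨σ, rfl, insert v τ, Or.inr rfl, ?_⟩
          rw [h', Finset.union_insert]

theorem join_critAux {C C₁ : ℕ → Prop} {K L : Set (Finset V)} {τ : Finset V}
    (hC : ∀ n, C₁ n → C (n + τ.card))
    (hs : Sep K (L ∪ {τ})) (hτ : τ ∉ L)
    (hf : ∀ w ∈ τ, τ.erase w ∈ L) (hL : Bld C (join K L))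
    {K' : Set (Finset V)} (hK' : Bld C₁ K') (hsub : K' ⊆ K) :
    Bld C (join K L ∪ join K' {τ}) := by
  induction hK' with
  | nil => rw [empty_join, Set.union_empty]; exact hL
  | pair X σ w h hw hσ hfσ ih =>
    have hXK : X ⊆ K := fun ρ hρ => hsub (Or.inl hρ)
    have hσK : σ ∈ K := hsub (Or.inr (Or.inl rfl))
    have hσK' : insert w σ ∈ K := hsub (Or.inr (Or.inr rfl))
    have hd1 : Disjoint (insert w σ) τ := hs _ hσK' _ (Or.inr rfl)
    have hd2 : Disjoint σ τ := hs σ hσK _ (Or.inr rfl)
    have hwτ : w ∉ τ := fun h' => (Finset.disjoint_right.1 hd1 h') (Finset.mem_insert_self _ _)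
    refine Bld.pair' (σ ∪ τ) w (ih hXK) ?_ ?_ ?_ ?_
    · rw [Finset.mem_union]; tauto
    · rintro (⟨σ', hσ', τ', hτ', he⟩ | ⟨σ', hσ', τ', hτ', he⟩)
      · have := union_inj (hs σ hσK τ' (Or.inl hτ')) (hs σ' hσ' τ (Or.inr rfl)) hd2
          (hs σ' hσ' τ' (Or.inl hτ')) he
        exact hτ (this.2 ▸ hτ')
      · have := union_inj (hs σ hσK τ' (Or.inr hτ')) (hs σ' (hXK hσ') τ (Or.inr rfl)) hd2
          (hs σ' (hXK hσ') τ' (Or.inr hτ')) he
        exact hσ (this.1 ▸ hσ')
    · intro u hu
      rw [Finset.mem_union] at hu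
      rcases hu with hu | hu
      · right
        refine ⟨(insert w σ).erase u, hfσ u hu, τ, rfl, ?_⟩
        have huτ : u ∉ τ := Finset.disjoint_left.1 hd2 hu
        rw [← Finset.insert_union]
        ext a
        simp only [Finset.mem_erase, Finset.mem_union]
        constructor
        · tauto
        · rintro (h' | h')
          · exact ⟨h'.1, Or.inl h'.2⟩
          · exact ⟨fun h'' => huτ (h'' ▸ h'), Or.inr h'⟩
      · left
        refine ⟨insert w σ, hσK', τ.erase u, hf u hu, ?_⟩
        have huσ : u ∉ insert w σ := Finset.disjoint_right.1 hd1 hu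
        rw [← Finset.insert_union]
        ext a
        simp only [Finset.mem_erase, Finset.mem_union]
        constructor
        · tauto
        · rintro (h' | h')
          · exact ⟨fun h'' => huσ (h'' ▸ h'), Or.inl h'⟩
          · exact ⟨h'.1, Or.inr h'.2⟩
    · rw [union_join, Set.union_assoc]
      congr 2
      ext ρ
      constructor
      · rintro ⟨σ', hσ' | hσ', τ', hτ', rfl⟩
        · rw [Set.mem_singleton_iff] at hτ'
          subst hσ'
          subst hτ'
          left; rfl
        · rw [Set.mem_singleton_iff] at hσ' hτ'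
          subst hσ'
          subst hτ'
          right
          rw [Set.mem_singleton_iff, Finset.insert_union]
      · rintro (h' | h')
        · exact ⟨σ, Or.inl rfl, τ, rfl, h'⟩
        · rw [Set.mem_singleton_iff] at h'
          refine ⟨insert w σ, Or.inr rfl, τ, rfl, ?_⟩
          rw [h', Finset.insert_union]
  | crit X σ h hσ hc hfσ ih =>
    have hXK : X ⊆ K := fun ρ hρ => hsub (Or.inl hρ)
    have hσK : σ ∈ K := hsub (Or.inr rfl)
    have hd2 : Disjoint σ τ := hs σ hσK _ (Or.inr rfl)
    refine Bld.crit' (σ ∪ τ) (ih hXK) ?_ ?_ ?_ ?_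
    · rintro (⟨σ', hσ', τ', hτ', he⟩ | ⟨σ', hσ', τ', hτ', he⟩)
      · have := union_inj (hs σ hσK τ' (Or.inl hτ')) (hs σ' hσ' τ (Or.inr rfl)) hd2
          (hs σ' hσ' τ' (Or.inl hτ')) he
        exact hτ (this.2 ▸ hτ')
      · have := union_inj (hs σ hσK τ' (Or.inr hτ')) (hs σ' (hXK hσ') τ (Or.inr rfl)) hd2
          (hs σ' (hXK hσ') τ' (Or.inr hτ')) he
        exact hσ (this.1 ▸ hσ')
    · rw [Finset.card_union_of_disjoint hd2]; exact hC _ hc
    · intro u hu
      rw [Finset.mem_union] at hu
      rcases hu with hu | hu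
      · right
        refine ⟨σ.erase u, hfσ u hu, τ, rfl, ?_⟩
        have huτ : u ∉ τ := Finset.disjoint_left.1 hd2 hu
        ext a
        simp only [Finset.mem_erase, Finset.mem_union]
        constructor
        · tauto
        · rintro (h' | h')
          · exact ⟨h'.1, Or.inl h'.2⟩
          · exact ⟨fun h'' => huτ (h'' ▸ h'), Or.inr h'⟩
      · left
        refine ⟨σ, hσK, τ.erase u, hf u hu, ?_⟩
        have huσ : u ∉ σ := Finset.disjoint_right.1 hd2 hu
        ext a
        simp only [Finset.mem_erase, Finset.mem_union]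
        constructor
        · tauto
        · rintro (h' | h')
          · exact ⟨fun h'' => huσ (h'' ▸ h'), Or.inl h'⟩
          · exact ⟨h'.1, Or.inr h'.2⟩
    · rw [union_join, Set.union_assoc]
      congr 2
      ext ρ
      constructor
      · rintro ⟨σ', hσ', τ', hτ', rfl⟩
        rw [Set.mem_singleton_iff] at hσ' hτ'
        subst hσ'
        subst hτ'
        rfl
      · intro h'
        exact ⟨σ, rfl, τ, rfl, h'⟩

/-- The join of two complexes. -/
theorem Bld.join {C C₁ C₂ : ℕ → Prop} {K L : Set (Finset V)} (hK : Bld C₁ K) (hL : Bld C₂ L)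
    (hs : Sep K L) (hC : ∀ a b, C₁ a → C₂ b → C (a + b)) : Bld C (join K L) := by
  induction hL with
  | nil => rw [join_empty]; exact Bld.nil
  | pair L τ v h hv hτ hf ih =>
    rw [join_union]
    exact join_pairAux hs hv hτ hf (ih fun σ hσ τ' hτ' => hs σ hσ τ' (Or.inl hτ')) hK.seq subset_rfl
  | crit L τ h hτ hc hf ih =>
    rw [join_union]
    exact join_critAux (fun n hn => hC n _ hn hc) hs hτ hf
      (ih fun σ hσ τ' hτ' => hs σ hσ τ' (Or.inl hτ')) hK subset_rfl

end Pool.Agent.Q19.WS
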