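import Pool.Agent.Q19.WS.SM

/-!
# The lattice of set partitions
-/

namespace Pool.Agent.Q19.WS

open Classical in
theorem Bld.addUp {P : Type*} [PartialOrder P] [DecidableEq P] [Finite P] {C : ℕ → Prop}
    {S T : Set P} (hST : Disjoint S T) (h : Bld C (Ch S))
    (hT : ∀ z ∈ T, ∃ C₁ C₂ : ℕ → Prop, Bld C₁ (Ch {y ∈ S | y < z}) ∧
      Bld C₂ (Ch {y ∈ S ∪ T | z < y}) ∧ ∀ a b, C₁ a → C₂ b → C (a + b + 1)) :
    Bld C (Ch (S ∪ T)) := by
  have key : ∀ (n : ℕ) (N : Set P), N ⊆ T → (∀ y ∈ N, ∀ z ∈ T, y ≤ z → z ∈ N) → N.ncard = n →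
      Bld C (Ch (S ∪ N)) := by
    intro n
    induction n with
    | zero =>
      intro N hN _ hn
      rw [(Set.ncard_eq_zero N.toFinite).1 hn, Set.union_empty]
      exact h
    | succ n ih =>
      intro N hN hup hn
      have hf : N.Finite := N.toFinite
      have hne : N.Nonempty := by
        rw [Set.nonempty_iff_ne_empty]
        rintro rfl
        simp at hn
      obtain ⟨y, hy⟩ := hf.exists_minimal hne
      have hyN := hy.prop
      have hyT := hN hyN
      have hyS : y ∉ S := fun h' => Set.disjoint_left.1 hST h' hyT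
      have e : S ∪ N = insert y (S ∪ (N \ {y})) := by
        ext z
        simp only [Set.mem_union, Set.mem_insert_iff, Set.mem_diff, Set.mem_singleton_iff]
        by_cases hz : z = y
        · subst hz; simp [hyN]
        · simp [hz]
      rw [e]
      obtain ⟨C₁, C₂, h1, h2, h3⟩ := hT y hyT
      refine Bld.add (C₁ := C₁) (C₂ := C₂) ?_ ?_ ?_ ?_ h3
      · rintro (h' | h')
        · exact hyS h'
        · exact h'.2 rfl
      · refine ih (N \ {y}) (fun z hz => hN hz.1) ?_ ?_
        · intro z hz w hw hzw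
          refine ⟨hup z hz.1 w hw hzw, ?_⟩
          intro (hwy : w = y)
          subst hwy
          exact hz.2 (le_antisymm hzw (hy.le_of_le hz.1 hzw))
        · rw [Set.ncard_diff_singleton_of_mem hyN, hn]; rfl
      · convert h1 using 2
        ext z
        constructor
        · rintro ⟨hz | hz, hzy⟩
          · exact ⟨hz, hzy⟩
          · exact absurd (hy.le_of_le hz.1 hzy.le) (not_le_of_gt hzy)
        · rintro ⟨hz, hzy⟩
          exact ⟨Or.inl hz, hzy⟩
      · convert h2 using 2
        ext z
        constructor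
        · rintro ⟨hz | hz, hzy⟩
          · exact ⟨Or.inl hz, hzy⟩
          · exact ⟨Or.inr (hN hz.1), hzy⟩
        · rintro ⟨hz | hz, hzy⟩
          · exact ⟨Or.inl hz, hzy⟩
          · exact ⟨Or.inr ⟨hup y hyN z hz hzy.le, fun h' => hzy.ne' h'⟩, hzy⟩
  exact key _ T subset_rfl (fun _ _ z hz _ => hz) rfl

variable {α : Type*}

/-- the partition obtained from `u` by merging the blocks of `i` and `j` -/
def mg (u : Setoid α) (i j : α) : Setoid α where
  r a b := u a b ∨ (u a i ∧ u b j) ∨ (u a j ∧ u b i)
  iseqv := by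
    constructor
    · intro a; exact Or.inl (u.refl a)
    · rintro a b (h | h | h)
      · exact Or.inl (u.symm h)
      · exact Or.inr (Or.inr ⟨h.2, h.1⟩)
      · exact Or.inr (Or.inl ⟨h.2, h.1⟩)
    · rintro a b c (h | h | h) (h' | h' | h')
      · exact Or.inl (u.trans h h')
      · exact Or.inr (Or.inl ⟨u.trans h h'.1, h'.2⟩)
      · exact Or.inr (Or.inr ⟨u.trans h h'.1, h'.2⟩)
      · exact Or.inr (Or.inl ⟨h.1, u.trans (u.symm h') h.2⟩)
      · exact Or.inl (u.trans h.1 (u.trans (u.symm h'.1) (u.trans h.2 (u.symm h'.2))))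
      · exact Or.inl (u.trans h.1 (u.symm h'.2))
      · exact Or.inr (Or.inr ⟨h.1, u.trans (u.symm h') h.2⟩)
      · exact Or.inl (u.trans h.1 (u.symm h'.2))
      · exact Or.inl (u.trans h.1 (u.trans (u.symm h'.1) (u.trans h.2 (u.symm h'.2))))

theorem mg_iff (u : Setoid α) (i j a b : α) :
    mg u i j a b ↔ u a b ∨ (u a i ∧ u b j) ∨ (u a j ∧ u b i) := Iff.rfl

theorem le_mg (u : Setoid α) (i j : α) : u ≤ mg u i j := fun _ _ h => Or.inl h

theorem mg_self (u : Setoid α) (i j : α) : mg u i j i j := Or.inr (Or.inl ⟨u.refl i, u.refl j⟩)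

theorem mg_le {u w : Setoid α} {i j : α} (h : u ≤ w) (hij : w i j) : mg u i j ≤ w := by
  rintro a b (h' | h' | h')
  · exact h h'
  · exact w.trans (h h'.1) (w.trans hij (w.symm (h h'.2)))
  · exact w.trans (h h'.1) (w.trans (w.symm hij) (w.symm (h h'.2)))

theorem cov_mg {u : Setoid α} {i j : α} (hij : ¬ u i j) : u ⋖ mg u i j := by
  constructor
  · refine lt_of_le_of_ne (le_mg u i j) ?_
    intro h
    exact hij (h ▸ mg_self u i j)
  · intro w huw hwm
    have : ∃ a b, w a b ∧ ¬ u a b := by
      by_contra hc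
      push Not at hc
      exact huw.not_ge fun a b h => hc a b h
    obtain ⟨a, b, hab, hab'⟩ := this
    refine hwm.not_ge (mg_le huw.le ?_)
    rcases hwm.le hab with h' | h' | h'
    · exact absurd h' hab'
    · exact w.trans (w.symm (huw.le h'.1)) (w.trans hab (huw.le h'.2))
    · exact w.trans (w.symm (huw.le h'.2)) (w.trans (w.symm hab) (huw.le h'.1))

theorem exists_mg {x a : Setoid α} (h : x ⋖ a) : ∃ i j, ¬ x i j ∧ a = mg x i j := by
  have : ∃ i j, a i j ∧ ¬ x i j := by
    by_contra hc
    push Not at hc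
    exact h.lt.not_ge fun i j h' => hc i j h'
  obtain ⟨i, j, hij, hij'⟩ := this
  refine ⟨i, j, hij', ?_⟩
  have h1 : mg x i j ≤ a := mg_le h.le hij
  rcases eq_or_lt_of_le h1 with h2 | h2
  · exact h2.symm
  · exact absurd h2 (h.2 (cov_mg hij').lt)

theorem setoid_semimodular (x a u : Setoid α) (h : x ⋖ a) (hxu : x ≤ u) (hau : ¬ a ≤ u) :
    u ⋖ u ⊔ a := by
  obtain ⟨i, j, hij, rfl⟩ := exists_mg h
  have h1 : ¬ u i j := fun h' => hau (mg_le hxu h')
  have h2 : u ⊔ mg x i j = mg u i j := by
    apply le_antisymm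
    · exact sup_le (le_mg u i j) (mg_le (hxu.trans (le_mg u i j)) (mg_self u i j))
    · exact mg_le le_sup_left ((le_sup_right : mg x i j ≤ u ⊔ mg x i j) (mg_self x i j))
  rw [h2]
  exact cov_mg h1

/-- the rank of a set partition -/
noncomputable def rk (u : Setoid α) : ℕ := Nat.card α - Nat.card (Quotient u)

theorem card_quot_mg [Finite α] {u : Setoid α} {i j : α} (hij : ¬ u i j) :
    Nat.card (Quotient u) = Nat.card (Quotient (mg u i j)) + 1 := by
  classical
  have hb : Function.Bijective (fun c : {c : Quotient u // c ≠ Quotient.mk u i} =>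
      (Quotient.lift (fun a => Quotient.mk (mg u i j) a)
        (fun a b h => Quotient.sound (le_mg u i j h)) c.1 : Quotient (mg u i j))) := by
    constructor
    · rintro ⟨c, hc⟩ ⟨d, hd⟩ h
      apply Subtype.ext
      revert hc hd h
      refine Quotient.inductionOn₂ c d ?_
      intro a b ha hb hab
      have ha' : ¬ u a i := fun h' => ha (Quotient.sound h')
      have hb' : ¬ u b i := fun h' => hb (Quotient.sound h')
      have hab' : mg u i j a b := Quotient.exact hab
      rcases hab' with h' | h' | h'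
      · exact Quotient.sound h'
      · exact absurd h'.1 ha'
      · exact absurd h'.2 hb'
    · intro d
      refine Quotient.inductionOn d ?_
      intro b
      by_cases hb : u b i
      · refine ⟨⟨Quotient.mk u j, ?_⟩, ?_⟩
        · intro h'
          exact hij (u.symm (Quotient.exact h'))
        · exact Quotient.sound (Or.inr (Or.inr ⟨u.refl j, hb⟩))
      · refine ⟨⟨Quotient.mk u b, ?_⟩, rfl⟩
        intro h'
        exact hb (Quotient.exact h')
  rw [← Nat.card_congr (Equiv.ofBijective _ hb),
    ← Nat.card_congr (Equiv.optionSubtypeNe (Quotient.mk u i)), Finite.card_option]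

theorem rk_mg [Finite α] {u : Setoid α} {i j : α} (hij : ¬ u i j) :
    rk (mg u i j) = rk u + 1 := by
  have h := card_quot_mg hij
  have h2 : Nat.card (Quotient u) ≤ Nat.card α :=
    Nat.card_le_card_of_surjective (Quotient.mk u) Quotient.mk_surjective
  unfold rk
  omega

theorem rk_cov [Finite α] (u v : Setoid α) (h : u ⋖ v) : rk v = rk u + 1 := by
  obtain ⟨i, j, hij, rfl⟩ := exists_mg h
  exact rk_mg hij

instance [Finite α] : Finite (Setoid α) :=
  Finite.of_injective (fun s : Setoid α => fun a b => s a b) fun s t h => by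
    ext a b
    exact iff_of_eq (congrFun (congrFun h a) b)

/-- the partition with the block `A`, all other blocks being singletons -/
def eA (A : Set α) : Setoid α where
  r a b := a = b ∨ (a ∈ A ∧ b ∈ A)
  iseqv := by
    constructor
    · intro a; exact Or.inl rfl
    · rintro a b (h | h)
      · exact Or.inl h.symm
      · exact Or.inr ⟨h.2, h.1⟩
    · rintro a b c (h | h) (h' | h')
      · exact Or.inl (h.trans h')
      · exact Or.inr (h ▸ h')
      · exact Or.inr (h' ▸ h)
      · exact Or.inr ⟨h.1, h'.2⟩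

theorem eA_iff (A : Set α) (a b : α) : eA A a b ↔ a = b ∨ (a ∈ A ∧ b ∈ A) := Iff.rfl

/-- the partition with the blocks `A` and `B`, all other blocks being singletons -/
def e2 (A B : Set α) (h : Disjoint A B) : Setoid α where
  r a b := a = b ∨ (a ∈ A ∧ b ∈ A) ∨ (a ∈ B ∧ b ∈ B)
  iseqv := by
    constructor
    · intro a; exact Or.inl rfl
    · rintro a b (h | h | h)
      · exact Or.inl h.symm
      · exact Or.inr (Or.inl ⟨h.2, h.1⟩)
      · exact Or.inr (Or.inr ⟨h.2, h.1⟩)
    · rintro a b c (h1 | h1 | h1) (h' | h' | h')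
      · exact Or.inl (h1.trans h')
      · exact Or.inr (Or.inl (h1 ▸ h'))
      · exact Or.inr (Or.inr (h1 ▸ h'))
      · exact Or.inr (Or.inl (h' ▸ h1))
      · exact Or.inr (Or.inl ⟨h1.1, h'.2⟩)
      · exact absurd h'.1 (Set.disjoint_left.1 h h1.2)
      · exact Or.inr (Or.inr (h' ▸ h1))
      · exact absurd h1.2 (Set.disjoint_left.1 h h'.1)
      · exact Or.inr (Or.inr ⟨h1.1, h'.2⟩)

theorem e2_iff (A B : Set α) (h : Disjoint A B) (a b : α) :
    e2 A B h a b ↔ a = b ∨ (a ∈ A ∧ b ∈ A) ∨ (a ∈ B ∧ b ∈ B) := Iff.rfl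

theorem mg_eA (A : Set α) {i a : α} (ha : a ∈ A) (_hi : i ∉ A) :
    eA (insert i A) = mg (eA A) i a := by
  ext x y
  rw [mg_iff, eA_iff, eA_iff, eA_iff, eA_iff, eA_iff, eA_iff]
  simp only [Set.mem_insert_iff]
  constructor
  · rintro (h | ⟨h1 | h1, h2 | h2⟩)
    · tauto
    · left; left; rw [h1, h2]
    · right; left; exact ⟨Or.inl h1, Or.inr ⟨h2, ha⟩⟩
    · right; right; exact ⟨Or.inr ⟨h1, ha⟩, Or.inl h2⟩
    · tauto
  · rintro ((h | h) | ⟨h1 | h1, h2 | h2⟩ | ⟨h1 | h1, h2 | h2⟩)
    · tauto
    · tauto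
    · right; exact ⟨Or.inl h1, Or.inr (h2 ▸ ha)⟩
    · right; exact ⟨Or.inl h1, Or.inr h2.1⟩
    · right; exact ⟨Or.inr h1.1, Or.inr (h2 ▸ ha)⟩
    · right; exact ⟨Or.inr h1.1, Or.inr h2.1⟩
    · right; exact ⟨Or.inr (h1 ▸ ha), Or.inl h2⟩
    · right; exact ⟨Or.inr (h1 ▸ ha), Or.inr h2.1⟩
    · right; exact ⟨Or.inr h1.1, Or.inl h2⟩
    · right; exact ⟨Or.inr h1.1, Or.inr h2.1⟩

theorem rk_eA [Finite α] (A : Set α) (hA : A.Nonempty) : rk (eA A) + 1 = A.ncard := by
  classical
  obtain ⟨a, ha⟩ := hA
  have key : ∀ S : Set α, S.Finite → a ∉ S → rk (eA (insert a S)) + 1 = (insert a S).ncard := by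
    intro S hS
    induction S, hS using Set.Finite.induction_on with
    | empty =>
      intro _
      have e : eA (insert a (∅ : Set α)) = ⊥ := by
        ext x y
        rw [eA_iff]
        simp only [Set.mem_insert_iff, Set.mem_empty_iff_false, or_false]
        constructor
        · rintro (h | h)
          · exact h
          · exact h.1.trans h.2.symm
        · intro h; exact Or.inl h
      rw [e]
      have : rk (⊥ : Setoid α) = 0 := by
        unfold rk
        have : Nat.card α ≤ Nat.card (Quotient (⊥ : Setoid α)) :=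
          Nat.card_le_card_of_injective (Quotient.mk (⊥ : Setoid α))
            (fun x y h => Quotient.exact h)
        omega
      rw [this]
      simp
    | @insert b S hb hS' ih =>
      intro hab
      have hab' : a ≠ b := fun h => hab (h ▸ Set.mem_insert _ _)
      have haS : a ∉ S := fun h => hab (Set.mem_insert_of_mem _ h)
      have h1 := ih haS
      have hbn : b ∉ insert a S := by
        rw [Set.mem_insert_iff]; tauto
      rw [Set.insert_comm, mg_eA (insert a S) (Set.mem_insert a S) hbn,
        rk_mg, h1, Set.ncard_insert_of_notMem hbn]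
      rw [eA_iff]
      rintro (h | h)
      · exact hab' h.symm
      · exact hbn h.1
  have := key (A \ {a}) (Set.toFinite _) (fun h => h.2 rfl)
  rwa [Set.insert_diff_singleton, Set.insert_eq_of_mem ha] at this

theorem mg_e2 (A B : Set α) {i b : α} (h : Disjoint A B) (h' : Disjoint A (insert i B))
    (hb : b ∈ B) (_hi : i ∉ B) : e2 A (insert i B) h' = mg (e2 A B h) i b := by
  have hiA : i ∉ A := fun hi => Set.disjoint_left.1 h' hi (Set.mem_insert _ _)
  have hbA : b ∉ A := fun hi => Set.disjoint_left.1 h hi hb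
  ext x y
  rw [mg_iff, e2_iff, e2_iff, e2_iff, e2_iff, e2_iff, e2_iff]
  simp only [Set.mem_insert_iff]
  constructor
  · rintro (h | h | ⟨h1 | h1, h2 | h2⟩)
    · tauto
    · tauto
    · left; left; rw [h1, h2]
    · right; left; exact ⟨Or.inl h1, Or.inr (Or.inr ⟨h2, hb⟩)⟩
    · right; right; exact ⟨Or.inr (Or.inr ⟨h1, hb⟩), Or.inl h2⟩
    · tauto
  · rintro ((h | h | h) | ⟨h1 | h1 | h1, h2 | h2 | h2⟩ | ⟨h1 | h1 | h1, h2 | h2 | h2⟩)
    · tauto
    · tauto
    · tauto
    · right; right; exact ⟨Or.inl h1, Or.inr (h2 ▸ hb)⟩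
    · exact absurd h2.2 hbA
    · right; right; exact ⟨Or.inl h1, Or.inr h2.1⟩
    · exact absurd h1.2 hiA
    · exact absurd h1.2 hiA
    · exact absurd h1.2 hiA
    · right; right; exact ⟨Or.inr h1.1, Or.inr (h2 ▸ hb)⟩
    · exact absurd h2.2 hbA
    · right; right; exact ⟨Or.inr h1.1, Or.inr h2.1⟩
    · right; right; exact ⟨Or.inr (h1 ▸ hb), Or.inl h2⟩
    · exact absurd h2.2 hiA
    · right; right; exact ⟨Or.inr (h1 ▸ hb), Or.inr h2.1⟩
    · exact absurd h1.2 hbA
    · exact absurd h1.2 hbA
    · exact absurd h1.2 hbA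
    · right; right; exact ⟨Or.inr h1.1, Or.inl h2⟩
    · exact absurd h2.2 hiA
    · right; right; exact ⟨Or.inr h1.1, Or.inr h2.1⟩

theorem rk_e2 [Finite α] (A B : Set α) (h : Disjoint A B) (hA : A.Nonempty) (hB : B.Nonempty) :
    rk (e2 A B h) + 2 = A.ncard + B.ncard := by
  classical
  obtain ⟨b, hb⟩ := hB
  have key : ∀ S : Set α, S.Finite → b ∉ S → ∀ h : Disjoint A (insert b S),
      rk (e2 A (insert b S) h) + 2 = A.ncard + (insert b S).ncard := by
    intro S hS
    induction S, hS using Set.Finite.induction_on with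
    | empty =>
      intro _ h
      have e : e2 A (insert b (∅ : Set α)) h = eA A := by
        ext x y
        rw [eA_iff, e2_iff]
        simp only [Set.mem_insert_iff, Set.mem_empty_iff_false, or_false]
        constructor
        · rintro (h | h | h)
          · exact Or.inl h
          · exact Or.inr h
          · exact Or.inl (h.1.trans h.2.symm)
        · rintro (h | h)
          · exact Or.inl h
          · exact Or.inr (Or.inl h)
      rw [e]
      have := rk_eA A hA
      simp
      omega
    | @insert c S hc hS' ih =>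
      intro hab h
      have hab' : b ≠ c := fun h => hab (h ▸ Set.mem_insert _ _)
      have haS : b ∉ S := fun h => hab (Set.mem_insert_of_mem _ h)
      have hsub : insert b S ⊆ insert b (insert c S) :=
        Set.insert_subset_insert (Set.subset_insert _ _)
      have hd : Disjoint A (insert b S) := Set.disjoint_of_subset_right hsub h
      have h1 := ih haS hd
      have hbn : c ∉ insert b S := by
        rw [Set.mem_insert_iff]; tauto
      have e : insert b (insert c S) = insert c (insert b S) := Set.insert_comm _ _ _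
      have h' : Disjoint A (insert c (insert b S)) := e ▸ h
      have e' : e2 A (insert b (insert c S)) h = e2 A (insert c (insert b S)) h' := by
        ext x y
        rw [e2_iff, e2_iff, e]
      have hcA : c ∉ A := fun hi => Set.disjoint_left.1 h' hi (Set.mem_insert _ _)
      rw [e', mg_e2 A (insert b S) hd h' (Set.mem_insert b S) hbn, rk_mg, e,
        Set.ncard_insert_of_notMem hbn]
      · omega
      rw [e2_iff]
      rintro (h | h | h)
      · exact hab' h.symm
      · exact hcA h.1
      · exact hbn h.1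
  have e : insert b (B \ {b}) = B := by
    rw [Set.insert_diff_singleton, Set.insert_eq_of_mem hb]
  have h' : Disjoint A (insert b (B \ {b})) := e.symm ▸ h
  have := key (B \ {b}) (Set.toFinite _) (fun h => h.2 rfl) h'
  have e' : e2 A (insert b (B \ {b})) h' = e2 A B h := by
    ext x y
    rw [e2_iff, e2_iff, e]
  rwa [e', e] at this

end Pool.Agent.Q19.WS
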