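import Pool.Agent.Q19.WS.Attach

/-!
# Complexes with critical simplices of one dimension are wedges of spheres
-/

namespace Pool.Agent.Q19.WS

open Sph (mn Q)

variable {V : Type*} [DecidableEq V] [Fintype V] {C : Set (Finset V)} {m d : ℕ}
  {f : Fin m → Fin (d + 1) → V}

open Classical in
/-- the point of `C`, total function -/
noncomputable def yh (h : Ok f C) (p0 : Rl C) (x : Rl (Xc f C)) : Rl C :=
  if hl : la f x < 1 then ⟨yy f x, h.yy_mem x.2 hl⟩ else p0

theorem yh_coe (h : Ok f C) (p0 : Rl C) {x : Rl (Xc f C)} (hl : la f x < 1) :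
    (yh h p0 x : V → ℝ) = yy f x := by
  unfold yh
  rw [dif_pos hl]

theorem continuousOn_yh (h : Ok f C) (p0 : Rl C) :
    ContinuousOn (yh h p0) {x | la f x < 1} := by
  rw [Topology.IsInducing.subtypeVal.continuousOn_iff]
  have h1 : ContinuousOn (fun x : Rl (Xc f C) => yy f (x : V → ℝ)) {x | la f x < 1} := by
    rw [continuousOn_pi]
    intro v
    unfold yy
    have hu : Continuous fun x : Rl (Xc f C) => uu f (x : V → ℝ) v :=
      (continuous_apply v).comp (continuous_uu.comp continuous_subtype_val)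
    have hl : Continuous fun x : Rl (Xc f C) => 1 - la f (x : V → ℝ) :=
      continuous_const.sub (continuous_la.comp continuous_subtype_val)
    refine hu.continuousOn.div hl.continuousOn ?_
    intro x hx
    rw [Set.mem_setOf_eq] at hx
    linarith
  refine h1.congr ?_
  intro x hx
  exact yh_coe h p0 hx

open Classical in
/-- the homotopy -/
noncomputable def HH (h : Ok f C) (p0 : Rl C) (g : C(unitInterval × Rl C, Rl C))
    (p : unitInterval × Rl (Xc f C)) : V → ℝ :=
  if (p.1 : ℝ) ≤ 2 * la f p.2 then H1 f p.1 p.2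
  else g (Set.projIcc 0 1 zero_le_one ((p.1 : ℝ) - 2 * la f p.2), yh h p0 p.2)

theorem continuous_HH (h : Ok f C) (p0 : Rl C) (g : C(unitInterval × Rl C, Rl C))
    (hg0 : ∀ x, g (0, x) = x) : Continuous (HH h p0 g) := by
  have hla : Continuous fun p : unitInterval × Rl (Xc f C) => la f (p.2 : V → ℝ) :=
    continuous_la.comp (continuous_subtype_val.comp continuous_snd)
  have hla2 : Continuous fun p : unitInterval × Rl (Xc f C) => 2 * la f (p.2 : V → ℝ) :=
    continuous_const.mul hla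
  have ht : Continuous fun p : unitInterval × Rl (Xc f C) => (p.1 : ℝ) :=
    continuous_subtype_val.comp continuous_fst
  refine continuous_if_le ht hla2 ?_ ?_ ?_
  · refine Continuous.continuousOn ?_
    refine continuous_pi fun v => ?_
    unfold H1
    have hu : Continuous fun p : unitInterval × Rl (Xc f C) => uu f (p.2 : V → ℝ) v :=
      (continuous_apply v).comp (continuous_uu.comp (continuous_subtype_val.comp continuous_snd))
    have hm : ∀ i, Continuous fun p : unitInterval × Rl (Xc f C) => ms f i (p.2 : V → ℝ) :=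
      fun i => (continuous_ms i).comp (continuous_subtype_val.comp continuous_snd)
    refine Continuous.div ?_ (continuous_const.sub ht) ?_
    · refine (continuous_const.mul hu).add (continuous_finsetSum _ fun i _ => ?_)
      refine Continuous.mul ?_ continuous_const
      exact continuous_const.max (((continuous_const.mul (hm i))).sub (ht.div_const _))
    · intro p
      have := p.1.2.2
      have h1 : (p.1 : ℝ) ≤ 1 := this
      linarith
  · have hyh : ContinuousOn (fun p : unitInterval × Rl (Xc f C) => yh h p0 p.2)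
        {p | 2 * la f (p.2 : V → ℝ) ≤ (p.1 : ℝ)} := by
      refine (continuousOn_yh h p0).comp continuous_snd.continuousOn ?_
      intro p hp
      rw [Set.mem_setOf_eq] at hp
      change la f (p.2 : V → ℝ) < 1
      have h1 : (p.1 : ℝ) ≤ 1 := p.1.2.2
      linarith
    have hpr : Continuous fun p : unitInterval × Rl (Xc f C) =>
        Set.projIcc (0 : ℝ) 1 zero_le_one ((p.1 : ℝ) - 2 * la f p.2) :=
      continuous_projIcc.comp (ht.sub hla2)
    exact continuous_subtype_val.comp_continuousOn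
      (g.continuous.comp_continuousOn (hpr.continuousOn.prodMk hyh))
  · intro p hp
    have h1 : (p.1 : ℝ) ≤ 1 := p.1.2.2
    have h0 : (0 : ℝ) ≤ p.1 := p.1.2.1
    have hl : la f (p.2 : V → ℝ) < 1 := by linarith
    have e : Set.projIcc (0 : ℝ) 1 zero_le_one ((p.1 : ℝ) - 2 * la f p.2) = 0 := by
      rw [hp, sub_self]
      exact Set.projIcc_left zero_le_one
    rw [e, hg0, yh_coe h p0 hl]
    exact h.H1_eq_yy p.2.2 h0 h1 hp

theorem HH_mem (h : Ok f C) (p0 : Rl C) (g : C(unitInterval × Rl C, Rl C))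
    (p : unitInterval × Rl (Xc f C)) : HH h p0 g p ∈ Rl (Xc f C) := by
  unfold HH
  split_ifs with hp
  · exact h.H1_mem p.2.2 p.1.2.1 p.1.2.2 hp
  · have := (g (Set.projIcc 0 1 zero_le_one ((p.1 : ℝ) - 2 * la f p.2), yh h p0 p.2)).2
    exact ⟨this.1, this.2.1, Or.inl this.2.2⟩

theorem HH_C (h : Ok f C) (p0 : Rl C) (g : C(unitInterval × Rl C, Rl C))
    (hg0 : ∀ x, g (0, x) = x) (t : unitInterval) {x : Rl (Xc f C)} (hx : (x : V → ℝ) ∈ Rl C) :
    HH h p0 g (t, x) = g (t, ⟨x, hx⟩) := by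
  have h0 := (h.mem_C x.2).1 hx
  have hla := h.la_zero h0
  have hy : yh h p0 x = ⟨x, hx⟩ := by
    apply Subtype.ext
    rw [yh_coe h p0 (by rw [hla]; exact zero_lt_one)]
    exact h.yy_zero h0
  have ht : (0 : ℝ) ≤ t := t.2.1
  unfold HH
  split_ifs with hp
  · have hp' : (t : ℝ) ≤ 2 * la f (x : V → ℝ) := hp
    rw [hla, mul_zero] at hp'
    have : (t : ℝ) = 0 := le_antisymm hp' ht
    have ht0 : t = 0 := Subtype.ext this
    change H1 f (t : ℝ) (x : V → ℝ) = _
    rw [this, h.H1_zero x.2.1, ht0, hg0]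
  · have e : Set.projIcc (0 : ℝ) 1 zero_le_one ((t : ℝ) - 2 * la f (x : V → ℝ)) = t := by
      rw [hla, mul_zero, sub_zero]
      exact Set.projIcc_val zero_le_one t
    change (g (Set.projIcc (0 : ℝ) 1 zero_le_one ((t : ℝ) - 2 * la f (x : V → ℝ)), yh h p0 x) : V → ℝ) = _
    rw [e, hy]

/-- the map to the wedge -/
noncomputable def qq (f : Fin m → Fin (d + 1) → V) (x : V → ℝ) (i : Fin m) : Fin (d + 1) → ℝ :=
  Q (x ∘ f i)

theorem Ok.dl_zero (h : Ok f C) {x : V → ℝ} (hx : x ∈ Rl (Xc f C)) {i : Fin m}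
    (hi : 0 < ms f i x) : ∑ j, (x ∘ f i) j = 1 := by
  rw [← hx.2.1]
  exact h.sum_sg (h.supp_eq hx hi).le

theorem Ok.qq_mem (h : Ok f C) {x : V → ℝ} (hx : x ∈ Rl (Xc f C)) : qq f x ∈ Wedge m d := by
  constructor
  · intro i
    refine Sph.sum_Q ?_
    by_cases hi : ms f i x = 0
    · unfold ms at hi
      rw [hi, mul_zero]
    · have hi' : 0 < ms f i x := lt_of_le_of_ne (ms_nonneg hx.1 i) (Ne.symm hi)
      unfold Sph.dl
      rw [h.dl_zero hx hi', sub_self, zero_mul]
  · intro i i' hii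
    by_cases hi : ms f i x = 0
    · left; exact Sph.Q_of_mn_eq_zero hi
    · right
      have hi' : 0 < ms f i x := lt_of_le_of_ne (ms_nonneg hx.1 i) (Ne.symm hi)
      exact Sph.Q_of_mn_eq_zero (h.ms_other hx hi' hii.symm)

theorem Ok.exists_pt (h : Ok f C) (i : Fin m) {t : Fin (d + 1) → ℝ} (ht : 0 < mn t)
    (hs : ∑ j, t j = 1) : ∃ x ∈ Rl (Xc f C), x ∘ f i = t := by
  classical
  let x : V → ℝ := fun v => ∑ j, if f i j = v then t j else 0
  have hx : x ∘ f i = t := by
    funext j
    change ∑ l, (if f i l = f i j then t l else 0) = t j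
    rw [Finset.sum_eq_single j]
    · rw [if_pos rfl]
    · intro b _ hb
      rw [if_neg (fun h' => hb (h.inj i h'))]
    · intro h'; exact absurd (Finset.mem_univ j) h'
  have hpos : ∀ j, 0 < t j := fun j => ht.trans_le (Sph.mn_le t j)
  have hsub : ∀ v, v ∉ sg f i → x v = 0 := by
    intro v hv
    refine Finset.sum_eq_zero fun j _ => ?_
    rw [if_neg]
    intro h'
    exact hv (mem_sg.2 ⟨j, h'⟩)
  refine ⟨x, ⟨?_, ?_, Or.inr ⟨i, ?_⟩⟩, hx⟩
  · intro v
    refine Finset.sum_nonneg fun j _ => ?_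
    split_ifs
    · exact (hpos j).le
    · exact le_rfl
  · change ∑ v, ∑ j, (if f i j = v then t j else 0) = 1
    rw [Finset.sum_comm, ← hs]
    refine Finset.sum_congr rfl fun j _ => ?_
    rw [Finset.sum_ite_eq]
    simp
  · ext v
    rw [mem_supp]
    constructor
    · intro hv
      rw [mem_sg] at hv
      obtain ⟨j, rfl⟩ := hv
      have := congrFun hx j
      rw [Function.comp_apply] at this
      rw [this]
      exact (hpos j).ne'
    · intro hv
      by_contra hc
      exact hv (hsub v hc)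

theorem Ok.qq_surj (h : Ok f C) (hne : (Rl C).Nonempty) {y : Fin m → Fin (d + 1) → ℝ}
    (hy : y ∈ Wedge m d) : ∃ x ∈ Rl (Xc f C), qq f x = y := by
  by_cases hz : ∀ i, y i = Pi.single 0 1
  · obtain ⟨x, hx⟩ := hne
    have hx' : x ∈ Rl (Xc f C) := ⟨hx.1, hx.2.1, Or.inl hx.2.2⟩
    refine ⟨x, hx', ?_⟩
    funext i
    rw [hz i]
    exact Sph.Q_of_mn_eq_zero ((h.mem_C hx').1 hx i)
  · push Not at hz
    obtain ⟨i, hi⟩ := hz
    obtain ⟨t, ht, hs, hQ⟩ := Sph.Q_surj (hy.1 i) hi
    obtain ⟨x, hx, hxt⟩ := h.exists_pt i ht hs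
    have hmi : 0 < ms f i x := by
      unfold ms; rw [hxt]; exact ht
    refine ⟨x, hx, ?_⟩
    funext j
    by_cases hj : j = i
    · subst hj
      unfold qq
      rw [hxt, hQ]
    · rcases hy.2 j i hj with h' | h'
      · rw [h']
        exact Sph.Q_of_mn_eq_zero (h.ms_other hx hmi hj)
      · exact absurd h' hi

theorem Ok.qq_inj (h : Ok f C) {x x' : V → ℝ} (hx : x ∈ Rl (Xc f C)) (hx' : x' ∈ Rl (Xc f C))
    (he : qq f x = qq f x') : x = x' ∨ (x ∈ Rl C ∧ x' ∈ Rl C) := by
  by_cases hz : ∀ i, ms f i x = 0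
  · right
    refine ⟨(h.mem_C hx).2 hz, (h.mem_C hx').2 ?_⟩
    intro i
    have h1 : Q (x' ∘ f i) = Pi.single 0 1 := by
      have : qq f x i = Pi.single 0 1 := Sph.Q_of_mn_eq_zero (hz i)
      rw [he] at this
      exact this
    exact Sph.mn_eq_zero_of_Q h1
  · push Not at hz
    obtain ⟨i, hi⟩ := hz
    have hi1 : 0 < ms f i x := lt_of_le_of_ne (ms_nonneg hx.1 i) (Ne.symm hi)
    have hei : Q (x ∘ f i) = Q (x' ∘ f i) := congrFun he i
    have hi2 : 0 < ms f i x' := by
      refine lt_of_le_of_ne (ms_nonneg hx'.1 i) (Ne.symm ?_)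
      intro h0
      have : Q (x' ∘ f i) = Pi.single 0 1 := Sph.Q_of_mn_eq_zero h0
      rw [← hei] at this
      exact hi (Sph.mn_eq_zero_of_Q this)
    left
    have h1 := Sph.Q_inj hi1 hi2 (h.dl_zero hx hi1) (h.dl_zero hx' hi2) hei
    have hs1 := h.supp_eq hx hi1
    have hs2 := h.supp_eq hx' hi2
    funext v
    by_cases hv : v ∈ sg f i
    · rw [mem_sg] at hv
      obtain ⟨j, rfl⟩ := hv
      exact congrFun h1 j
    · rw [eq_zero_of_notMem hs1 hv, eq_zero_of_notMem hs2 hv]

/-- Attaching simplices to a contractible complex. -/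
theorem Ok.wedge (h : Ok f C) [hcon : ContractibleSpace (Rl C)] :
    Nonempty (ContinuousMap.HomotopyEquiv (Rl (Xc f C)) (Wedge m d)) := by
  obtain ⟨p0, ⟨g0⟩⟩ := id_nullhomotopic (Rl C)
  let g : C(unitInterval × Rl C, Rl C) := g0.toContinuousMap
  have hg0 : ∀ x, g (0, x) = x := fun x => g0.map_zero_left x
  have hg1 : ∀ x, g (1, x) = p0 := fun x => g0.map_one_left x
  have : CompactSpace (Rl (Xc f C)) := isCompact_iff_compactSpace.1 (Rl_compact h.downX)
  let q : C(Rl (Xc f C), Wedge m d) := ⟨fun x => ⟨qq f x, h.qq_mem x.2⟩, by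
    refine Continuous.subtype_mk ?_ _
    refine continuous_pi fun i => ?_
    exact Sph.continuous_Q.comp
      (continuous_pi fun j => (continuous_apply (f i j)).comp continuous_subtype_val)⟩
  refine equiv_of_quot q ?_ {x | (x : V → ℝ) ∈ Rl C} ?_ ?_
    ⟨fun p => ⟨HH h p0 g p, HH_mem h p0 g p⟩, (continuous_HH h p0 g hg0).subtype_mk _⟩ ?_ ?_ ?_
  · rintro ⟨y, hy⟩
    obtain ⟨x, hx, he⟩ := h.qq_surj ⟨p0, p0.2⟩ hy
    exact ⟨⟨x, hx⟩, Subtype.ext he⟩
  · intro x x' he
    have he' : qq f x = qq f x' := congrArg Subtype.val he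
    rcases h.qq_inj x.2 x'.2 he' with h' | h'
    · exact Or.inl (Subtype.ext h')
    · exact Or.inr h'
  · intro x hx x' hx'
    apply Subtype.ext
    funext i
    change Q _ = Q _
    rw [Sph.Q_of_mn_eq_zero ((h.mem_C x.2).1 hx i), Sph.Q_of_mn_eq_zero ((h.mem_C x'.2).1 hx' i)]
  · intro x
    apply Subtype.ext
    change HH h p0 g (0, x) = x
    unfold HH
    have hla : 0 ≤ la f (x : V → ℝ) := by
      unfold la
      have : 0 ≤ ∑ i, ms f i (x : V → ℝ) := Finset.sum_nonneg fun i _ => ms_nonneg x.2.1 i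
      positivity
    rw [if_pos]
    · exact h.H1_zero x.2.1
    · change ((0 : unitInterval) : ℝ) ≤ _
      rw [Set.Icc.coe_zero]
      linarith
  · intro t x hx
    change HH h p0 g (t, x) ∈ Rl C
    rw [HH_C h p0 g hg0 t hx]
    exact Subtype.coe_prop _
  · intro x hx x' hx'
    apply Subtype.ext
    change HH h p0 g (1, x) = HH h p0 g (1, x')
    rw [HH_C h p0 g hg0 1 hx, HH_C h p0 g hg0 1 hx', hg1, hg1]

/-- A nonvoid complex whose critical simplices all have `d + 1` vertices is homotopy equivalent to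
a wedge of spheres of dimension `d`. -/
theorem Bld.wedge {K : Set (Finset V)} (h : Bld (fun n => n = d + 1) K) (hne : K.Nonempty) :
    ∃ m : ℕ, Nonempty (ContinuousMap.HomotopyEquiv (Rl K) (Wedge m d)) := by
  rcases h.reorg (by omega) with rfl | ⟨C, F, hC, hCne, hF, hE, _, _⟩
  · exact absurd hne Set.not_nonempty_empty
  have hFfin : F.Finite := Set.toFinite F
  let m := Nat.card F
  have : Finite F := hFfin
  let e : Fin m ≃ F := (Finite.equivFin F).symm
  have hcard : ∀ i, ((e i : F) : Finset V).card = d + 1 := fun i => (hF _ (e i).2).1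
  let f : Fin m → Fin (d + 1) → V := fun i j => ((Finset.equivFinOfCardEq (hcard i)).symm j : V)
  have hsg : ∀ i, sg f i = ((e i : F) : Finset V) := by
    intro i
    ext v
    rw [mem_sg]
    constructor
    · rintro ⟨j, rfl⟩
      exact Subtype.coe_prop _
    · intro hv
      exact ⟨Finset.equivFinOfCardEq (hcard i) ⟨v, hv⟩, by simp [f]⟩
  have hok : Ok f C := by
    refine ⟨hC.down, ?_, ?_, ?_, ?_⟩
    · intro i j j' hjj
      exact (Finset.equivFinOfCardEq (hcard i)).symm.injective (Subtype.ext hjj)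
    · intro i i' hii
      rw [hsg, hsg] at hii
      exact e.injective (Subtype.ext hii)
    · intro i
      rw [hsg]
      exact (hF _ (e i).2).2.1
    · intro i
      rw [hsg]
      exact (hF _ (e i).2).2.2
  have hX : Xc f C = C ∪ F := by
    unfold Xc
    congr 1
    ext τ
    constructor
    · rintro ⟨i, rfl⟩
      rw [hsg]
      exact (e i).2
    · intro hτ
      exact ⟨e.symm ⟨τ, hτ⟩, by rw [hsg]; simp⟩
  have hcon : ContractibleSpace (Rl C) := hC.contractible hCne
  obtain ⟨e1⟩ := hok.wedge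
  rw [hX] at e1
  have hdown : Down (C ∪ F) := hX ▸ hok.downX
  obtain ⟨e2⟩ := hE.equiv hdown (hCne.mono Set.subset_union_left)
  exact ⟨m, ⟨e2.trans e1⟩⟩

end Pool.Agent.Q19.WS
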