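import Pool.Agent.Q19.WS.Lat

/-!
# Partitions of a set of `2 k + 1` elements without blocks of size `k`
-/

namespace Pool.Agent.Q19.WS

variable {α : Type*}

/-- the block of `i` -/
def bl (y : Setoid α) (i : α) : Set α := {j | y i j}

theorem mem_bl {y : Setoid α} {i j : α} : j ∈ bl y i ↔ y i j := Iff.rfl

/-- no block has `k` elements -/
def Good (k : ℕ) (y : Setoid α) : Prop := ∀ i, (bl y i).ncard ≠ k

/-- the partition with the blocks `I` and its complement -/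
def sp (I : Set α) : Setoid α where
  r a b := (a ∈ I ↔ b ∈ I)
  iseqv := ⟨fun _ => Iff.rfl, fun h => h.symm, fun h h' => h.trans h'⟩

theorem sp_iff (I : Set α) (a b : α) : sp I a b ↔ (a ∈ I ↔ b ∈ I) := Iff.rfl

theorem inf_iff (x y : Setoid α) (a b : α) : (x ⊓ y) a b ↔ x a b ∧ y a b := Iff.rfl

/-- the good partitions above `eA I` -/
def FI (k : ℕ) (I : Set α) : Set (Setoid α) := {y | Good k y ∧ y ≠ ⊤ ∧ eA I < y}

/-- `y` on `B`, `z` outside of `B` -/
def gl (z : Setoid α) (B : Set α) (y : Setoid α) : Setoid α where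
  r a b := (a ∈ B ↔ b ∈ B) ∧ (a ∈ B → y a b) ∧ (a ∉ B → z a b)
  iseqv := by
    constructor
    · intro a; exact ⟨Iff.rfl, fun _ => y.refl a, fun _ => z.refl a⟩
    · rintro a b ⟨h1, h2, h3⟩
      exact ⟨h1.symm, fun h => y.symm (h2 (h1.2 h)), fun h => z.symm (h3 (fun h' => h (h1.1 h')))⟩
    · rintro a b c ⟨h1, h2, h3⟩ ⟨h1', h2', h3'⟩
      exact ⟨h1.trans h1', fun h => y.trans (h2 h) (h2' (h1.1 h)),
        fun h => z.trans (h3 h) (h3' (fun h' => h (h1.2 h')))⟩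

theorem gl_iff (z : Setoid α) (B : Set α) (y : Setoid α) (a b : α) :
    gl z B y a b ↔ (a ∈ B ↔ b ∈ B) ∧ (a ∈ B → y a b) ∧ (a ∉ B → z a b) := Iff.rfl

theorem eA_le_sp (I : Set α) : eA I ≤ sp I := by
  intro a b h
  rcases h with h | h
  · exact h ▸ Iff.rfl
  · exact ⟨fun _ => h.2, fun _ => h.1⟩

theorem eA_le_iff {A : Set α} {o : α} (ho : o ∈ A) (y : Setoid α) :
    eA A ≤ y ↔ A ⊆ bl y o := by
  constructor
  · intro h a ha
    exact h (show eA A o a from Or.inr ⟨ho, ha⟩)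
  · rintro h a b (h' | h')
    · exact h' ▸ y.refl a
    · exact y.trans (y.symm (h h'.1)) (h h'.2)

theorem eA_mono {A B : Set α} (h : A ⊆ B) : eA A ≤ eA B := by
  rintro a b (h' | h')
  · exact Or.inl h'
  · exact Or.inr ⟨h h'.1, h h'.2⟩

theorem bl_eq {y : Setoid α} {i j : α} (h : y i j) : bl y i = bl y j := by
  ext a
  exact ⟨fun h' => y.trans (y.symm h) h', fun h' => y.trans h h'⟩

theorem bl_mono {y z : Setoid α} (h : y ≤ z) (i : α) : bl y i ⊆ bl z i := fun _ h' => h h'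

theorem self_mem_bl (y : Setoid α) (i : α) : i ∈ bl y i := y.refl i

theorem bl_eA {A : Set α} {i : α} (hi : i ∈ A) : bl (eA A) i = A := by
  ext a
  rw [mem_bl, eA_iff]
  constructor
  · rintro (h | h)
    · exact h ▸ hi
    · exact h.2
  · exact fun h => Or.inr ⟨hi, h⟩

theorem bl_eA' {A : Set α} {i : α} (hi : i ∉ A) : bl (eA A) i = {i} := by
  ext a
  rw [mem_bl, eA_iff, Set.mem_singleton_iff]
  constructor
  · rintro (h | h)
    · exact h.symm
    · exact absurd h.1 hi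
  · exact fun h => Or.inl h.symm

section G

variable {I : Set α} {y : Setoid α}

theorem bl_inf_mem (h : eA I ≤ y) {i : α} (hi : i ∈ I) : bl (y ⊓ sp I) i = I := by
  ext a
  rw [mem_bl, inf_iff, sp_iff]
  constructor
  · intro h'; exact h'.2.1 hi
  · intro h'
    exact ⟨h (Or.inr ⟨hi, h'⟩), ⟨fun _ => h', fun _ => hi⟩⟩

theorem bl_inf_notMem {i : α} (hi : i ∉ I) : bl (y ⊓ sp I) i = bl y i \ I := by
  ext a
  rw [mem_bl, inf_iff, sp_iff, Set.mem_diff, mem_bl]
  constructor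
  · intro h'; exact ⟨h'.1, fun h'' => hi (h'.2.2 h'')⟩
  · intro h'
    exact ⟨h'.1, ⟨fun h'' => absurd h'' hi, fun h'' => absurd h'' h'.2⟩⟩

theorem eA_le_inf (h : eA I ≤ y) : eA I ≤ y ⊓ sp I := le_inf h (eA_le_sp I)

theorem inf_idem' : (y ⊓ sp I) ⊓ sp I = y ⊓ sp I := by rw [inf_assoc, inf_idem]

theorem good_inf [Finite α] {k : ℕ} {o : α} (ho : o ∈ I) (h : eA I ≤ y) (hy : Good k y)
    (hI : I.ncard ≠ k) (hb : (bl y o).ncard ≠ k + I.ncard) : Good k (y ⊓ sp I) := by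
  intro i
  by_cases hi : i ∈ I
  · rw [bl_inf_mem h hi]; exact hI
  · rw [bl_inf_notMem hi]
    by_cases hoi : y o i
    · rw [← bl_eq hoi]
      have hsub : I ⊆ bl y o := (eA_le_iff ho y).1 h
      rw [Set.ncard_diff hsub I.toFinite]
      have : I.ncard ≤ (bl y o).ncard := Set.ncard_le_ncard hsub (Set.toFinite _)
      omega
    · have : bl y i \ I = bl y i := by
        ext a
        rw [Set.mem_diff]
        constructor
        · exact fun h' => h'.1
        · intro h'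
          refine ⟨h', fun haI => hoi ?_⟩
          exact y.trans (h (Or.inr ⟨ho, haI⟩)) (y.symm h')
      rw [this]
      exact hy i

end G

section Main

variable [Finite α] (k w : ℕ) (I : Set α) (o : α)

/-- see the proof -/
def R0 : Set (Setoid α) := {y ∈ FI k I | (bl y o).ncard ≠ k + w ∧ y ⊓ sp I ≠ eA I}
/-- see the proof -/
def T1 : Set (Setoid α) := {y ∈ FI k I | (bl y o).ncard = k + w ∧ y ≠ eA (bl y o)}
/-- see the proof -/
def T0 : Set (Setoid α) := {y ∈ FI k I | (bl y o).ncard = k + w ∧ y = eA (bl y o)}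
/-- see the proof -/
def AI : Set (Setoid α) := {y ∈ FI k I | (bl y o).ncard ≠ k + w ∧ y ⊓ sp I = eA I}

variable {k w I o}

omit [Finite α] in
theorem union_eq : ((R0 k w I o ∪ T1 k w I o) ∪ T0 k w I o) ∪ AI k w I o = FI k I := by
  ext y
  constructor
  · rintro (((h | h) | h) | h) <;> exact h.1
  · intro h
    by_cases h1 : (bl y o).ncard = k + w
    · by_cases h2 : y = eA (bl y o)
      · exact Or.inl (Or.inr ⟨h, h1, h2⟩)
      · exact Or.inl (Or.inl (Or.inr ⟨h, h1, h2⟩))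
    · by_cases h2 : y ⊓ sp I = eA I
      · exact Or.inr ⟨h, h1, h2⟩
      · exact Or.inl (Or.inl (Or.inl ⟨h, h1, h2⟩))

omit [Finite α] in
theorem ne_top_of_le_sp {y : Setoid α} (ho : o ∈ I) {c : α} (hc : c ∉ I) (h : y ≤ sp I) :
    y ≠ ⊤ := by
  rintro rfl
  have : sp I o c := h (show (⊤ : Setoid α) o c from trivial)
  exact hc (this.1 ho)

theorem inf_mem_R0 (hk : 1 ≤ k) (ho : o ∈ I) (hw : I.ncard = w) (hwk : w < k) {c : α} (hc : c ∉ I)
    {y : Setoid α} (hy : y ∈ R0 k w I o) : y ⊓ sp I ∈ R0 k w I o := by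
  obtain ⟨⟨hg, ht, he⟩, hb, hn⟩ := hy
  refine ⟨⟨?_, ?_, ?_⟩, ?_, ?_⟩
  · exact good_inf ho he.le hg (by omega) (by rw [hw]; exact hb)
  · exact ne_top_of_le_sp ho hc inf_le_right
  · exact lt_of_le_of_ne (eA_le_inf he.le) hn.symm
  · rw [bl_inf_mem he.le ho]; omega
  · rw [inf_idem']; exact hn

theorem bl_sp_mem {i : α} (hi : i ∈ I) : bl (sp I) i = I := by
  ext a
  rw [mem_bl, sp_iff]
  exact ⟨fun h => h.1 hi, fun h => ⟨fun _ => h, fun _ => hi⟩⟩

theorem bl_sp_notMem {i : α} (hi : i ∉ I) : bl (sp I) i = Iᶜ := by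
  ext a
  rw [mem_bl, sp_iff, Set.mem_compl_iff]
  exact ⟨fun h h' => hi (h.2 h'), fun h => ⟨fun h' => absurd h' hi, fun h' => absurd h' h⟩⟩

theorem stage1 [DecidableEq (Setoid α)] (C : ℕ → Prop) (hα : Nat.card α = 2 * k + 1) (ho : o ∈ I) (hw : I.ncard = w)
    (hwk : w < k) : Bld C (Ch (R0 k w I o)) := by
  have hcard : Iᶜ.ncard = 2 * k + 1 - w := by rw [Set.ncard_compl, hα, hw]
  obtain ⟨c, d, hc, hd, hcd⟩ : ∃ c d, c ∈ Iᶜ ∧ d ∈ Iᶜ ∧ c ≠ d := by
    have h2 : 1 < Iᶜ.ncard := by omega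
    obtain ⟨c, hc, d, hd, hcd⟩ := (Set.one_lt_ncard (Set.toFinite _)).1 h2
    exact ⟨c, d, hc, hd, hcd⟩
  have hk : 1 ≤ k := by omega
  refine Bld.interior (Set.toFinite _) (fun y => y ⊓ sp I)
    (fun y hy => inf_mem_R0 hk ho hw hwk hc hy) (fun y _ => inf_le_left)
    (fun y _ z _ h => inf_le_inf_right _ h) (fun y _ => inf_idem') ?_
  have hne : sp I ≠ eA I := by
    intro h
    have h1 : sp I c d := ⟨fun h' => absurd h' hc, fun h' => absurd h' hd⟩
    rw [h] at h1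
    rcases h1 with h1 | h1
    · exact hcd h1
    · exact hc h1.1
  refine Bld.cone (Set.toFinite _) (x := sp I) ⟨⟨⟨?_, ?_, ?_⟩, ?_, ?_⟩, inf_idem _⟩ ?_
  · intro i
    by_cases hi : i ∈ I
    · rw [bl_sp_mem hi]; omega
    · rw [bl_sp_notMem hi]; omega
  · exact ne_top_of_le_sp ho hc le_rfl
  · exact lt_of_le_of_ne (eA_le_sp I) hne.symm
  · rw [bl_sp_mem ho]; omega
  · rw [inf_idem]; exact hne
  · intro y hy
    left
    rw [← hy.2]
    exact inf_le_right

/-! ### stage 2 -/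

omit [Finite α] in
theorem gl_bl_mem {z : Setoid α} {y : Setoid α} (hyz : y ≤ z) {i : α} (hi : z o i) :
    bl (gl z (bl z o) y) i = bl y i := by
  ext a
  rw [mem_bl, gl_iff]
  constructor
  · intro h; exact h.2.1 hi
  · intro h
    exact ⟨⟨fun _ => z.trans hi (hyz h), fun _ => hi⟩, fun _ => h, fun h' => absurd hi h'⟩

omit [Finite α] in
theorem gl_bl_notMem {z : Setoid α} {y : Setoid α} {i : α} (hi : ¬ z o i) :
    bl (gl z (bl z o) y) i = bl z i := by
  ext a
  rw [mem_bl, gl_iff]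
  constructor
  · intro h; exact h.2.2 hi
  · intro h
    exact ⟨⟨fun h' => absurd h' hi, fun h' => absurd (z.trans h' (z.symm h)) hi⟩,
      fun h' => absurd h' hi, fun _ => h⟩

omit [Finite α] in
theorem gl_le {z : Setoid α} {y : Setoid α} (hyz : y ≤ z) (B : Set α) : gl z B y ≤ z := by
  intro a b h
  by_cases ha : a ∈ B
  · exact hyz (h.2.1 ha)
  · exact h.2.2 ha

omit [Finite α] in
theorem le_gl {z : Setoid α} {y : Setoid α} (hyz : y ≤ z) : y ≤ gl z (bl z o) y := by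
  intro a b h
  exact ⟨⟨fun h' => z.trans h' (hyz h), fun h' => z.trans h' (z.symm (hyz h))⟩, fun _ => h,
    fun _ => hyz h⟩

omit [Finite α] in
theorem gl_mono {z : Setoid α} {y y' : Setoid α} (h : y ≤ y') (B : Set α) :
    gl z B y ≤ gl z B y' := by
  intro a b hab
  exact ⟨hab.1, fun ha => h (hab.2.1 ha), hab.2.2⟩

omit [Finite α] in
theorem gl_gl {z : Setoid α} {y : Setoid α} (B : Set α) :
    gl z B (gl z B y) = gl z B y := by
  ext a b
  rw [gl_iff, gl_iff]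
  tauto

theorem stage2_lower [DecidableEq (Setoid α)] (C : ℕ → Prop) (hα : Nat.card α = 2 * k + 1) (hk : 2 ≤ k) (ho : o ∈ I)
    (hw : I.ncard = w) (hwk : w < k) {z : Setoid α} (hz : z ∈ T1 k w I o) :
    Bld C (Ch {y ∈ R0 k w I o | y < z}) := by
  have hcard : Iᶜ.ncard = 2 * k + 1 - w := by rw [Set.ncard_compl, hα, hw]
  obtain ⟨c, hc⟩ : ∃ c, c ∈ Iᶜ := by
    have h2 : 0 < Iᶜ.ncard := by omega
    exact (Set.ncard_pos (Set.toFinite _)).1 h2
  obtain ⟨⟨hgz, htz, hez⟩, hbz, hnz⟩ := hz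
  have hIB : I ⊆ bl z o := (eA_le_iff ho z).1 hez.le
  refine Bld.interior (Set.toFinite _) (fun y => y ⊓ sp I)
    (fun y hy => ⟨inf_mem_R0 (by omega) ho hw hwk hc hy.1, lt_of_le_of_lt inf_le_left hy.2⟩)
    (fun y _ => inf_le_left)
    (fun y _ z _ h => inf_le_inf_right _ h) (fun y _ => inf_idem') ?_
  -- general statement for the operator
  have hq : ∀ y : Setoid α, Good k y → y ≤ z → eA I ≤ y → y ≤ sp I → (bl y o).ncard ≠ k + w →
      eA I ≠ gl z (bl z o) y →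
      gl z (bl z o) y ∈ {y ∈ {y ∈ R0 k w I o | y < z} | y ⊓ sp I = y} := by
    intro y hgy hyz hey hys hby hne
    have hsp : gl z (bl z o) y ≤ sp I := by
      intro a b hab
      by_cases ha : a ∈ bl z o
      · exact hys (hab.2.1 ha)
      · have hb : b ∉ bl z o := fun h' => ha (hab.1.2 h')
        exact ⟨fun h' => absurd (hIB h') ha, fun h' => absurd (hIB h') hb⟩
    have hfix : gl z (bl z o) y ⊓ sp I = gl z (bl z o) y := inf_eq_left.2 hsp
    have hlt : gl z (bl z o) y < z := by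
      refine lt_of_le_of_ne (gl_le hyz _) ?_
      intro h
      have h1 := gl_bl_mem (o := o) hyz (z.refl o)
      rw [h] at h1
      exact hby (h1 ▸ hbz)
    refine ⟨⟨⟨⟨?_, ?_, ?_⟩, ?_, ?_⟩, hlt⟩, hfix⟩
    · intro i
      by_cases hi : z o i
      · rw [gl_bl_mem hyz hi]; exact hgy i
      · rw [gl_bl_notMem hi]; exact hgz i
    · exact ne_top_of_le_sp ho hc hsp
    · exact lt_of_le_of_ne (hey.trans (le_gl hyz)) hne
    · rw [gl_bl_mem hyz (z.refl o)]; exact hby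
    · rw [hfix]; exact hne.symm
  have hqy : ∀ y ∈ {y ∈ {y ∈ R0 k w I o | y < z} | y ⊓ sp I = y},
      gl z (bl z o) y ∈ {y ∈ {y ∈ R0 k w I o | y < z} | y ⊓ sp I = y} := by
    rintro y ⟨⟨⟨⟨hgy, _, hey⟩, hby, _⟩, hyz⟩, hfy⟩
    refine hq y hgy hyz.le hey.le (inf_eq_left.1 hfy) hby ?_
    intro h
    exact (hey.trans_le (le_gl (o := o) hyz.le)).ne h
  refine Bld.closure (Set.toFinite _) (fun y => gl z (bl z o) y) hqy
    (fun y hy => le_gl hy.1.2.le) (fun y _ y' _ h => gl_mono h _) (fun y _ => gl_gl _) ?_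
  have hIz : eA I ≤ z := hez.le
  have hp : gl z (bl z o) (eA I) ∈ {y ∈ {y ∈ R0 k w I o | y < z} | y ⊓ sp I = y} := by
    refine hq (eA I) ?_ hIz le_rfl (eA_le_sp I) ?_ ?_
    · intro i
      by_cases hi : i ∈ I
      · rw [bl_eA hi]; omega
      · rw [bl_eA' hi, Set.ncard_singleton]; omega
    · rw [bl_eA ho]; omega
    · intro h
      have hBz : eA (bl z o) ≤ z := (eA_le_iff (self_mem_bl z o) z).2 subset_rfl
      obtain ⟨a, b, hab, hab'⟩ : ∃ a b, z a b ∧ ¬ eA (bl z o) a b := by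
        by_contra hc'
        push Not at hc'
        exact hnz (le_antisymm (fun a b h => hc' a b h) hBz)
      rw [eA_iff] at hab'
      push Not at hab'
      have ha : a ∉ bl z o := by
        intro ha
        exact hab'.2 ha (z.trans ha hab)
      have h1 : gl z (bl z o) (eA I) a b := by
        refine ⟨⟨fun h' => absurd h' ha, fun h' => absurd (z.trans h' (z.symm hab)) ha⟩,
          fun h' => absurd h' ha, fun _ => hab⟩
      rw [← h] at h1
      rcases h1 with h1 | h1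
      · exact hab'.1 h1
      · exact ha (hIB h1.1)
  refine Bld.cone (Set.toFinite _) (x := gl z (bl z o) (eA I)) ⟨hp, gl_gl _⟩ ?_
  rintro y ⟨hy, hy'⟩
  right
  rw [← hy']
  exact gl_mono hy.1.1.1.2.2.le _

theorem stage2 [DecidableEq (Setoid α)] (C : ℕ → Prop) (hα : Nat.card α = 2 * k + 1) (hk : 2 ≤ k) (ho : o ∈ I)
    (hw : I.ncard = w) (hwk : w < k) : Bld C (Ch (R0 k w I o ∪ T1 k w I o)) := by
  refine Bld.addUp ?_ (stage1 C hα ho hw hwk) ?_
  · rw [Set.disjoint_left]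
    rintro y ⟨_, h, _⟩ ⟨_, h', _⟩
    exact h h'
  · intro z hz
    exact ⟨fun _ => False, fun _ => True, stage2_lower _ hα hk ho hw hwk hz,
      Bld.chTrue (Set.toFinite _), fun _ _ h _ => absurd h not_false⟩

end Main

end Pool.Agent.Q19.WS
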