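import Pool.Agent.Q19.WS.Part

/-!
# Partitions of a set of `2 k + 1` elements without blocks of size `k`: the main statement
-/

namespace Pool.Agent.Q19.WS

variable {α : Type*} [Finite α] {k w : ℕ} {I : Set α} {o : α}

theorem stage3_lower [DecidableEq (Setoid α)] (hα : Nat.card α = 2 * k + 1) (hk : 2 ≤ k)
    (ho : o ∈ I) (hw : I.ncard = w) (hw1 : 1 ≤ w) (hwk : w < k) {z : Setoid α}
    (hz : z ∈ T0 k w I o) :
    Bld (fun m => m + 2 = k) (Ch {y ∈ R0 k w I o ∪ T1 k w I o | y < z}) := by
  have hcard : Iᶜ.ncard = 2 * k + 1 - w := by rw [Set.ncard_compl, hα, hw]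
  obtain ⟨c, hc⟩ : ∃ c, c ∈ Iᶜ := by
    have h2 : 0 < Iᶜ.ncard := by omega
    exact (Set.ncard_pos (Set.toFinite _)).1 h2
  obtain ⟨⟨hgz, htz, hez⟩, hbz, hnz⟩ := hz
  have hIB : I ⊆ bl z o := (eA_le_iff ho z).1 hez.le
  have hoB : o ∈ bl z o := self_mem_bl z o
  have e1 : {y ∈ R0 k w I o ∪ T1 k w I o | y < z} = {y ∈ R0 k w I o | y < z} := by
    ext y
    constructor
    · rintro ⟨h | h, hyz⟩
      · exact ⟨h, hyz⟩
      · exfalso
        obtain ⟨_, hb, _⟩ := h
        have h1 : bl y o = bl z o :=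
          Set.eq_of_subset_of_ncard_le (bl_mono hyz.le o) (by omega) (Set.toFinite _)
        have h2 : z ≤ y := by
          rw [hnz, ← h1]
          exact (eA_le_iff (self_mem_bl y o) y).2 subset_rfl
        exact hyz.not_ge h2
    · rintro ⟨h, hyz⟩
      exact ⟨Or.inl h, hyz⟩
  rw [e1]
  refine Bld.interior (Set.toFinite _) (fun y => y ⊓ sp I)
    (fun y hy => ⟨inf_mem_R0 (by omega) ho hw hwk hc hy.1, lt_of_le_of_lt inf_le_left hy.2⟩)
    (fun y _ => inf_le_left)
    (fun y _ z _ h => inf_le_inf_right _ h) (fun y _ => inf_idem') ?_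
  have hdisj : Disjoint I (bl z o \ I) := Set.disjoint_sdiff_right
  have hD : (bl z o \ I).ncard = k := by
    rw [Set.ncard_diff hIB (Set.toFinite _)]; omega
  have hDne : (bl z o \ I).Nonempty := by
    rw [← Set.ncard_pos (Set.toFinite _)]; omega
  have hle2 : eA I ≤ e2 I (bl z o \ I) hdisj := by
    rintro a b (h | h)
    · exact Or.inl h
    · exact Or.inr (Or.inl h)
  have hr1 := rk_eA I ⟨o, ho⟩
  have hr2 := rk_e2 I (bl z o \ I) hdisj ⟨o, ho⟩ hDne
  have hlt2 : eA I < e2 I (bl z o \ I) hdisj := by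
    refine lt_of_le_of_ne hle2 ?_
    intro h
    rw [← h] at hr2
    omega
  have hsp2 : e2 I (bl z o \ I) hdisj ≤ sp I := by
    rintro a b (h | h | h)
    · exact h ▸ Iff.rfl
    · exact ⟨fun _ => h.2, fun _ => h.1⟩
    · exact ⟨fun h' => absurd h' h.1.2, fun h' => absurd h' h.2.2⟩
  have hz2 : e2 I (bl z o \ I) hdisj ≤ z := by
    rintro a b (h | h | h)
    · exact h ▸ z.refl a
    · exact z.trans (z.symm (hIB h.1)) (hIB h.2)
    · exact z.trans (z.symm h.1.1) h.2.1
  have e3 : {y ∈ {y ∈ R0 k w I o | y < z} | y ⊓ sp I = y} =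
      Set.Ioo (eA I) (e2 I (bl z o \ I) hdisj) \ ∅ := by
    ext y
    constructor
    · rintro ⟨⟨⟨⟨hgy, _, hey⟩, hby, _⟩, hyz⟩, hfy⟩
      refine ⟨⟨hey, lt_of_le_of_ne ?_ ?_⟩, Set.notMem_empty _⟩
      · intro a b hab
        have h1 : eA (bl z o) a b := by rw [← hnz]; exact hyz.le hab
        have h2 : a ∈ I ↔ b ∈ I := (inf_eq_left.1 hfy) hab
        rcases h1 with h1 | h1
        · exact Or.inl h1
        · by_cases ha : a ∈ I
          · exact Or.inr (Or.inl ⟨ha, h2.1 ha⟩)
          · exact Or.inr (Or.inr ⟨⟨h1.1, ha⟩, ⟨h1.2, fun h' => ha (h2.2 h')⟩⟩)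
      · intro h
        obtain ⟨i, hi⟩ := hDne
        apply hgy i
        have : bl y i = bl z o \ I := by
          rw [h]
          ext a
          rw [mem_bl, e2_iff]
          constructor
          · rintro (h' | h' | h')
            · exact h' ▸ hi
            · exact absurd h'.1 hi.2
            · exact h'.2
          · exact fun h' => Or.inr (Or.inr ⟨hi, h'⟩)
        rw [this, hD]
    · rintro ⟨⟨hey, hy2⟩, _⟩
      have hysp : y ≤ sp I := hy2.le.trans hsp2
      have hfy : y ⊓ sp I = y := inf_eq_left.2 hysp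
      have hblI : ∀ i ∈ I, bl y i = I := by
        intro i hi
        have := bl_inf_mem hey.le hi
        rwa [hfy] at this
      refine ⟨⟨⟨⟨?_, ?_, hey⟩, ?_, ?_⟩, hy2.trans_le hz2⟩, hfy⟩
      · intro i
        by_cases hi : i ∈ I
        · rw [hblI i hi]; omega
        · by_cases hi2 : i ∈ bl z o
          · intro hik
            have hsub : bl y i ⊆ bl z o \ I := by
              intro a ha
              have h1 : e2 I (bl z o \ I) hdisj i a := hy2.le ha
              rw [e2_iff] at h1
              rcases h1 with h1 | h1 | h1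
              · exact h1 ▸ ⟨hi2, hi⟩
              · exact absurd h1.1 hi
              · exact h1.2
            have heq : bl y i = bl z o \ I :=
              Set.eq_of_subset_of_ncard_le hsub (by omega) (Set.toFinite _)
            refine hy2.not_ge ?_
            rintro a b (h | h | h)
            · exact h ▸ y.refl a
            · exact hey.le (Or.inr h)
            · rw [← heq] at h
              exact y.trans (y.symm h.1) h.2
          · have : bl y i = {i} := by
              ext a
              rw [mem_bl, Set.mem_singleton_iff]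
              constructor
              · intro ha
                have h1 : e2 I (bl z o \ I) hdisj i a := hy2.le ha
                rw [e2_iff] at h1
                rcases h1 with h1 | h1 | h1
                · exact h1.symm
                · exact absurd h1.1 hi
                · exact absurd h1.1.1 hi2
              · intro ha
                rw [ha]
            rw [this, Set.ncard_singleton]; omega
      · exact ne_top_of_le_sp ho hc hysp
      · rw [hblI o ho]; omega
      · rw [hfy]; exact hey.ne'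
  rw [e3]
  obtain ⟨a, ha, hay⟩ := exists_covBy_le_of_lt hlt2
  refine Bld.mono ?_ (Bld.semimodular rk rk_cov setoid_semimodular (k - 2) (eA I)
    (e2 I (bl z o \ I) hdisj) a ∅ (by omega) ha hay (fun u hu => absurd hu (Set.notMem_empty _)))
  intro m hm
  omega

theorem stage3_upper [DecidableEq (Setoid α)] (hα : Nat.card α = 2 * k + 1) (hk : 2 ≤ k)
    (ho : o ∈ I) (hw : I.ncard = w) (hw1 : 1 ≤ w) (hwk : w < k) {z : Setoid α}
    (hz : z ∈ T0 k w I o) :
    Bld (fun m => m + w = k) (Ch {y ∈ (R0 k w I o ∪ T1 k w I o) ∪ T0 k w I o | z < y}) := by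
  obtain ⟨⟨hgz, htz, hez⟩, hbz, hnz⟩ := hz
  have hIB : I ⊆ bl z o := (eA_le_iff ho z).1 hez.le
  have hBc : (bl z o)ᶜ.ncard = k + 1 - w := by
    rw [Set.ncard_compl, hα]; omega
  obtain ⟨c, hc⟩ : ∃ c, c ∈ (bl z o)ᶜ := by
    have h2 : 0 < (bl z o)ᶜ.ncard := by omega
    exact (Set.ncard_pos (Set.toFinite _)).1 h2
  obtain ⟨a, b, ha, hb, hab⟩ : ∃ a b, a ∈ bl z o \ I ∧ b ∈ bl z o \ I ∧ a ≠ b := by
    have hD : (bl z o \ I).ncard = k := by
      rw [Set.ncard_diff hIB (Set.toFinite _)]; omega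
    obtain ⟨c, hc, d, hd, hcd⟩ := (Set.one_lt_ncard (s := bl z o \ I) (Set.toFinite _)).1 (by omega)
    exact ⟨c, d, hc, hd, hcd⟩
  have e : {y ∈ (R0 k w I o ∪ T1 k w I o) ∪ T0 k w I o | z < y} =
      Set.Ioo z ⊤ \ {y | z < y ∧ y < ⊤ ∧ ¬ Good k y} := by
    ext y
    constructor
    · rintro ⟨h, hzy⟩
      have hy : y ∈ FI k I := by
        rcases h with (h | h) | h <;> exact h.1
      exact ⟨⟨hzy, lt_top_iff_ne_top.2 hy.2.1⟩, fun h' => h'.2.2 hy.1⟩
    · rintro ⟨⟨hzy, hyt⟩, hg⟩
      have hgy : Good k y := by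
        by_contra hc'
        exact hg ⟨hzy, hyt, hc'⟩
      have hy : y ∈ FI k I := ⟨hgy, hyt.ne, hez.trans hzy⟩
      refine ⟨?_, hzy⟩
      by_cases h1 : (bl y o).ncard = k + w
      · by_cases h2 : y = eA (bl y o)
        · exact Or.inr ⟨hy, h1, h2⟩
        · exact Or.inl (Or.inr ⟨hy, h1, h2⟩)
      · refine Or.inl (Or.inl ⟨hy, h1, ?_⟩)
        intro h2
        have h3 : (y ⊓ sp I) a b := by
          rw [inf_iff]
          refine ⟨hzy.le (z.trans (z.symm ha.1) hb.1), ?_⟩
          exact ⟨fun h' => absurd h' ha.2, fun h' => absurd h' hb.2⟩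
        rw [h2] at h3
        rcases h3 with h3 | h3
        · exact hab h3
        · exact ha.2 h3.1
  rw [e]
  have htop : (⊤ : Setoid α) = eA Set.univ := by
    ext x y
    rw [eA_iff]
    simp
  have hrt : rk (⊤ : Setoid α) + 1 = 2 * k + 1 := by
    rw [htop, rk_eA _ ⟨o, Set.mem_univ o⟩, Set.ncard_univ, hα]
  have hrz : rk z + 1 = k + w := by
    have := rk_eA (bl z o) ⟨o, self_mem_bl z o⟩
    rw [← hnz] at this
    omega
  refine Bld.mono ?_ (Bld.semimodular rk rk_cov setoid_semimodular (k - w) z ⊤ (mg z o c) _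
    (by omega) (cov_mg hc) le_top ?_)
  · intro m hm; omega
  · rintro u ⟨hzu, hut, hgu⟩
    unfold Good at hgu
    push Not at hgu
    obtain ⟨i, hi⟩ := hgu
    have hBu : bl z o ⊆ bl u o := bl_mono hzu.le o
    have hBu' : (bl z o).ncard ≤ (bl u o).ncard := Set.ncard_le_ncard hBu (Set.toFinite _)
    have hoi : ¬ u o i := by
      intro h
      have := bl_eq h
      rw [this, hi] at hBu'
      omega
    have hsub : bl u i ⊆ (bl z o)ᶜ := by
      intro x hx hx'
      exact hoi (u.trans (hBu hx') (u.symm hx))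
    have heq : bl u i = (bl z o)ᶜ :=
      Set.eq_of_subset_of_ncard_le hsub (by omega) (Set.toFinite _)
    have hsup : ∀ x, (u ⊔ mg z o c) o x := by
      intro x
      by_cases hx : x ∈ bl z o
      · exact (le_sup_left : u ≤ u ⊔ mg z o c) (hBu hx)
      · have h1 : x ∈ bl u i := by rw [heq]; exact hx
        have h2 : c ∈ bl u i := by rw [heq]; exact hc
        have h3 : (u ⊔ mg z o c) o c := (le_sup_right : mg z o c ≤ u ⊔ mg z o c) (mg_self z o c)
        have h4 : (u ⊔ mg z o c) c x :=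
          (le_sup_left : u ≤ u ⊔ mg z o c) (u.trans (u.symm h2) h1)
        exact (u ⊔ mg z o c).trans h3 h4
    rw [eq_top_iff]
    intro x y _
    exact (u ⊔ mg z o c).trans ((u ⊔ mg z o c).symm (hsup x)) (hsup y)

theorem stage3 [DecidableEq (Setoid α)] (hα : Nat.card α = 2 * k + 1) (hk : 2 ≤ k)
    (ho : o ∈ I) (hw : I.ncard = w) (hw1 : 1 ≤ w) (hwk : w < k) :
    Bld (fun m => m + 1 + w = 2 * k) (Ch ((R0 k w I o ∪ T1 k w I o) ∪ T0 k w I o)) := by
  refine Bld.addUp ?_ (stage2 _ hα hk ho hw hwk) ?_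
  · rw [Set.disjoint_left]
    rintro y (⟨_, h, _⟩ | ⟨_, _, h⟩) ⟨_, h1, h2⟩
    · exact h h1
    · exact h h2
  · intro z hz
    refine ⟨_, _, stage3_lower hα hk ho hw hw1 hwk hz, stage3_upper hα hk ho hw hw1 hwk hz, ?_⟩
    intro a b ha hb
    omega

omit [Finite α] in
theorem exists_of_AI {z : Setoid α} (ho : o ∈ I) (hz : z ∈ AI k w I o) :
    ∃ i, i ∉ I ∧ z = eA (insert i I) := by
  obtain ⟨⟨_, _, hez⟩, _, hn⟩ := hz
  have hsub : I ⊆ bl z o := (eA_le_iff ho z).1 hez.le
  have key : ∀ a b, z a b → (a ∈ I ↔ b ∈ I) → a = b ∨ (a ∈ I ∧ b ∈ I) := by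
    intro a b h h'
    have : (z ⊓ sp I) a b := ⟨h, h'⟩
    rw [hn] at this
    exact this
  obtain ⟨a, b, hab, hab'⟩ : ∃ a b, z a b ∧ ¬ eA I a b := by
    by_contra hc
    push Not at hc
    exact hez.not_ge fun a b h => hc a b h
  rw [eA_iff] at hab'
  have hex : ∃ i, i ∉ I ∧ z o i := by
    by_cases ha : a ∈ I
    · by_cases hb : b ∈ I
      · exact absurd (Or.inr ⟨ha, hb⟩) hab'
      · exact ⟨b, hb, z.trans (hsub ha) hab⟩
    · by_cases hb : b ∈ I
      · exact ⟨a, ha, z.trans (hsub hb) (z.symm hab)⟩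
      · exact absurd (key a b hab ⟨fun h => absurd h ha, fun h => absurd h hb⟩) hab'
  obtain ⟨i, hi, hoi⟩ := hex
  refine ⟨i, hi, ?_⟩
  have hout : ∀ y, y ∉ I → z o y → y = i := by
    intro y hy hoy
    rcases key y i (z.trans (z.symm hoy) hoi) ⟨fun h => absurd h hy, fun h => absurd h hi⟩ with h | h
    · exact h
    · exact absurd h.1 hy
  apply le_antisymm
  · intro x y hxy
    rw [eA_iff]
    by_cases hx : x ∈ I
    · by_cases hy : y ∈ I
      · exact Or.inr ⟨Or.inr hx, Or.inr hy⟩
      · exact Or.inr ⟨Or.inr hx, Or.inl (hout y hy (z.trans (hsub hx) hxy))⟩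
    · by_cases hy : y ∈ I
      · exact Or.inr ⟨Or.inl (hout x hx (z.trans (hsub hy) (z.symm hxy))), Or.inr hy⟩
      · rcases key x y hxy ⟨fun h => absurd h hx, fun h => absurd h hy⟩ with h | h
        · exact Or.inl h
        · exact absurd h.1 hx
  · refine (eA_le_iff (Set.mem_insert_of_mem i ho) z).2 ?_
    intro x hx
    rcases hx with hx | hx
    · rw [hx]; exact hoi
    · exact hsub hx

/-- The order complex of the partitions above `eA I` without blocks of size `k`, `|I| = w < k`. -/
theorem bld_FI [DecidableEq (Setoid α)] (hα : Nat.card α = 2 * k + 1) (hk : 2 ≤ k) :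
    ∀ (j w : ℕ), 1 ≤ w → w + j + 1 = k → ∀ (I : Set α), o ∈ I → I.ncard = w →
      Bld (fun m => m + 1 + w = 2 * k) (Ch (FI k I)) := by
  intro j
  induction j with
  | zero =>
    intro w hw1 hwk I ho hw
    have h3 := stage3 hα hk ho hw hw1 (by omega)
    have : (R0 k w I o ∪ T1 k w I o) ∪ T0 k w I o = FI k I := by
      rw [← union_eq (k := k) (w := w) (I := I) (o := o)]
      have : AI k w I o = ∅ := by
        rw [Set.eq_empty_iff_forall_notMem]
        intro z hz
        obtain ⟨i, hi, rfl⟩ := exists_of_AI ho hz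
        apply hz.1.1 o
        rw [bl_eA (Set.mem_insert_of_mem i ho), Set.ncard_insert_of_notMem hi]
        omega
      rw [this, Set.union_empty]
    rwa [this] at h3
  | succ j ih =>
    intro w hw1 hwk I ho hw
    rw [← union_eq (k := k) (w := w) (I := I) (o := o)]
    refine Bld.addUp ?_ (stage3 hα hk ho hw hw1 (by omega)) ?_
    · rw [Set.disjoint_left]
      rintro y ((⟨_, _, h⟩ | ⟨_, h, _⟩) | ⟨_, h, _⟩) ⟨_, h1, h2⟩
      · exact h h2
      · exact h1 h
      · exact h1 h
    · intro z hz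
      obtain ⟨i, hi, hzi⟩ := exists_of_AI ho hz
      refine ⟨fun m => m = 0, fun m => m + 1 + (w + 1) = 2 * k, ?_, ?_, ?_⟩
      · have e : {y ∈ R0 k w I o ∪ T1 k w I o ∪ T0 k w I o | y < z} = ∅ := by
          rw [Set.eq_empty_iff_forall_notMem]
          rintro y ⟨hy, hyz⟩
          have hey : eA I < y := by
            rcases hy with (h | h) | h <;> exact h.1.2.2
          have hcov : eA I ⋖ z := by
            rw [hzi, mg_eA I ho hi]
            refine cov_mg ?_
            rw [eA_iff]
            rintro (h | h)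
            · exact hi (h ▸ ho)
            · exact hi h.1
          exact hcov.2 hey hyz
        rw [e]
        exact Bld.chEmpty rfl
      · have e : {y ∈ R0 k w I o ∪ T1 k w I o ∪ T0 k w I o ∪ AI k w I o | z < y} =
            FI k (insert i I) := by
          rw [union_eq]
          ext y
          constructor
          · rintro ⟨hy, hzy⟩
            exact ⟨hy.1, hy.2.1, hzi ▸ hzy⟩
          · rintro ⟨h1, h2, h3⟩
            have h4 : z < y := hzi ▸ h3
            exact ⟨⟨h1, h2, hz.1.2.2.trans h4⟩, h4⟩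
        rw [e]
        exact ih (w + 1) (by omega) (by omega) (insert i I) (Set.mem_insert_of_mem i ho)
          (by rw [Set.ncard_insert_of_notMem hi, hw])
      · intro a b ha hb
        omega

/-- The proper part of the poset of partitions of a set of `2 k + 1` elements without blocks of size
`k`. -/
theorem bld_main [DecidableEq (Setoid α)] (hα : Nat.card α = 2 * k + 1) (hk : 2 ≤ k) :
    Bld (fun m => m + 2 = 2 * k) (Ch {y : Setoid α | Good k y ∧ y ≠ ⊥ ∧ y ≠ ⊤}) := by
  obtain ⟨o⟩ : Nonempty α := by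
    by_contra h
    rw [not_nonempty_iff] at h
    rw [Nat.card_of_isEmpty] at hα
    omega
  have h := bld_FI (o := o) hα hk (k - 2) 1 le_rfl (by omega) {o} rfl (Set.ncard_singleton o)
  have e : FI k {o} = {y : Setoid α | Good k y ∧ y ≠ ⊥ ∧ y ≠ ⊤} := by
    have hbot : eA ({o} : Set α) = ⊥ := by
      ext x y
      rw [eA_iff]
      constructor
      · rintro (h | h)
        · exact h
        · exact (h.1 : x = o).trans (h.2 : y = o).symm
      · intro h; exact Or.inl h
    ext y
    unfold FI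
    rw [hbot]
    simp only [Set.mem_setOf_eq, bot_lt_iff_ne_bot]
    tauto
  rw [e] at h
  refine Bld.mono ?_ h
  intro m hm
  omega

end Pool.Agent.Q19.WS
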