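import Pool.Agent.Q19.WS.Bld

/-!
# The geometric realization, and elementary collapses
-/

namespace Pool.Agent.Q19.WS

/-- A strong deformation of `B` onto `A`. -/
theorem equiv_of_deform {E : Type*} [TopologicalSpace E] {A B : Set E} (hAB : A ⊆ B)
    (F : unitInterval × B → E) (hF : Continuous F) (h0 : ∀ x : B, F (0, x) = x)
    (hB : ∀ (t : unitInterval) (x : B), F (t, x) ∈ B) (h1 : ∀ x : B, F (1, x) ∈ A)
    (hA : ∀ x : B, (x : E) ∈ A → F (1, x) = x) :
    Nonempty (ContinuousMap.HomotopyEquiv B A) := by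
  refine ⟨⟨⟨fun x => ⟨F (1, x), h1 x⟩, by fun_prop⟩, ⟨fun x => ⟨x, hAB x.2⟩, by fun_prop⟩, ?_, ?_⟩⟩
  · -- incl ∘ r ≃ id
    refine ContinuousMap.Homotopic.symm ⟨?_⟩
    refine ⟨⟨fun p => ⟨F p, hB p.1 p.2⟩, by fun_prop⟩, ?_, ?_⟩
    · intro x
      exact Subtype.ext (h0 x)
    · intro x
      rfl
  · have : (⟨fun x => ⟨F (1, x), h1 x⟩, by fun_prop⟩ : C(B, A)).comp
        (⟨fun x => ⟨x, hAB x.2⟩, by fun_prop⟩ : C(A, B)) = ContinuousMap.id A := by
      ext x
      exact hA ⟨x, hAB x.2⟩ x.2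
    rw [this]

variable {V : Type*} [DecidableEq V] [Fintype V]

/-- the support of a point -/
noncomputable def supp (x : V → ℝ) : Finset V := Finset.univ.filter (fun v => x v ≠ 0)

omit [DecidableEq V] in
theorem mem_supp {x : V → ℝ} {v : V} : v ∈ supp x ↔ x v ≠ 0 := by
  unfold supp; simp

/-- the geometric realization of a complex -/
def Rl (X : Set (Finset V)) : Set (V → ℝ) :=
  {x | (∀ v, 0 ≤ x v) ∧ ∑ v, x v = 1 ∧ supp x ∈ X}

/-- the smallest coordinate on `σ` -/
noncomputable def mu (σ : Finset V) (hσ : σ.Nonempty) (x : V → ℝ) : ℝ := σ.inf' hσ x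

omit [DecidableEq V] [Fintype V] in
theorem mu_le {σ : Finset V} (hσ : σ.Nonempty) (x : V → ℝ) {v : V} (hv : v ∈ σ) :
    mu σ hσ x ≤ x v := Finset.inf'_le _ hv

omit [DecidableEq V] [Fintype V] in
theorem exists_mu {σ : Finset V} (hσ : σ.Nonempty) (x : V → ℝ) : ∃ v ∈ σ, mu σ hσ x = x v :=
  Finset.exists_mem_eq_inf' hσ x

omit [DecidableEq V] [Fintype V] in
theorem mu_nonneg {σ : Finset V} (hσ : σ.Nonempty) {x : V → ℝ} (hx : ∀ v, 0 ≤ x v) :
    0 ≤ mu σ hσ x := by
  obtain ⟨v, _, h⟩ := exists_mu hσ x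
  rw [h]; exact hx v

omit [DecidableEq V] [Fintype V] in
theorem continuous_mu {σ : Finset V} (hσ : σ.Nonempty) : Continuous (mu σ hσ) := by
  unfold mu
  exact Continuous.finset_inf'_apply hσ (fun v _ => continuous_apply v)

omit [DecidableEq V] in
theorem mu_pos_iff {σ : Finset V} (hσ : σ.Nonempty) {x : V → ℝ} (hx : ∀ v, 0 ≤ x v) :
    0 < mu σ hσ x ↔ σ ⊆ supp x := by
  constructor
  · intro h v hv
    rw [mem_supp]
    exact (h.trans_le (mu_le hσ x hv)).ne'
  · intro h
    obtain ⟨v, hv, h'⟩ := exists_mu hσ x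
    rw [h']
    exact lt_of_le_of_ne (hx v) (Ne.symm (mem_supp.1 (h hv)))

/-- the deformation -/
noncomputable def push (σ : Finset V) (hσ : σ.Nonempty) (v : V) (t : ℝ) (x : V → ℝ) : V → ℝ :=
  fun u => x u - (if u ∈ σ then t * mu σ hσ x else 0) + (if u = v then σ.card * (t * mu σ hσ x) else 0)

omit [Fintype V] in
theorem continuous_push {σ : Finset V} (hσ : σ.Nonempty) (v : V) :
    Continuous fun p : ℝ × (V → ℝ) => push σ hσ v p.1 p.2 := by
  have hmu := continuous_mu (V := V) hσ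
  refine continuous_pi fun u => ?_
  unfold push
  have h1 : Continuous fun p : ℝ × (V → ℝ) => if u ∈ σ then p.1 * mu σ hσ p.2 else 0 := by
    split_ifs <;> fun_prop
  have h2 : Continuous fun p : ℝ × (V → ℝ) =>
      if u = v then (σ.card : ℝ) * (p.1 * mu σ hσ p.2) else 0 := by
    split_ifs <;> fun_prop
  exact ((by fun_prop : Continuous fun p : ℝ × (V → ℝ) => p.2 u).sub h1).add h2

theorem sum_push {σ : Finset V} (hσ : σ.Nonempty) (v : V) (t : ℝ) (x : V → ℝ) :
    ∑ u, push σ hσ v t x u = ∑ u, x u := by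
  unfold push
  rw [Finset.sum_add_distrib, Finset.sum_sub_distrib, Finset.sum_ite_mem, Finset.univ_inter,
    Finset.sum_const, Finset.sum_ite_eq' Finset.univ v, if_pos (Finset.mem_univ v), nsmul_eq_mul]
  ring

/-- An elementary collapse. -/
theorem collapse {X : Set (Finset V)} (hX : Down X) {σ : Finset V} {v : V} (hσ : σ.Nonempty)
    (hv : v ∉ σ) (hσX : σ ∉ X) (hf : ∀ w ∈ σ, (insert v σ).erase w ∈ X) :
    Nonempty (ContinuousMap.HomotopyEquiv (Rl (X ∪ {σ, insert v σ})) (Rl X)) := by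
  have hX' : Down (X ∪ {σ, insert v σ}) := hX.pair hv hf
  -- points with positive minimum
  have hpos : ∀ x ∈ Rl (X ∪ {σ, insert v σ}), 0 < mu σ hσ x → supp x ⊆ insert v σ := by
    rintro x ⟨hx0, _, hx2⟩ hm
    have hsub := (mu_pos_iff hσ hx0).1 hm
    rcases hx2 with h | h | h
    · exact absurd (hX _ h σ hsub) hσX
    · rw [h]; exact Finset.subset_insert v σ
    · rw [Set.mem_singleton_iff] at h
      rw [h]
  have hzero : ∀ x ∈ Rl (X ∪ {σ, insert v σ}), mu σ hσ x = 0 → x ∈ Rl X := by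
    rintro x ⟨hx0, hx1, hx2⟩ hm
    refine ⟨hx0, hx1, ?_⟩
    have hns : ¬ σ ⊆ supp x := by
      intro h
      have := (mu_pos_iff hσ hx0).2 h
      exact this.ne' hm
    rcases hx2 with h | h | h
    · exact h
    · exact absurd h.ge hns
    · rw [Set.mem_singleton_iff] at h
      exact absurd (h ▸ Finset.subset_insert v σ) hns
  have hpush0 : ∀ (t : ℝ) (x : V → ℝ), mu σ hσ x = 0 → push σ hσ v t x = x := by
    intro t x h
    funext u
    unfold push
    rw [h]
    simp
  have hnn : ∀ (t : unitInterval) (x : V → ℝ), (∀ v, 0 ≤ x v) → ∀ u, 0 ≤ push σ hσ v t x u := by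
    intro t x hx u
    have hm := mu_nonneg hσ hx
    have ht0 : (0:ℝ) ≤ t := t.2.1
    have ht1 : (t:ℝ) ≤ 1 := t.2.2
    unfold push
    have h2 : 0 ≤ (if u = v then (σ.card : ℝ) * (t * mu σ hσ x) else 0) := by
      split_ifs
      · positivity
      · exact le_rfl
    have h1 : 0 ≤ x u - (if u ∈ σ then (t:ℝ) * mu σ hσ x else 0) := by
      split_ifs with h
      · have := mu_le hσ x h
        nlinarith
      · simpa using hx u
    linarith
  have hsupp : ∀ (t : ℝ) (x : V → ℝ), supp x ⊆ insert v σ → supp (push σ hσ v t x) ⊆ insert v σ := by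
    intro t x h u hu
    rw [mem_supp] at hu
    by_contra hn
    rw [Finset.mem_insert, not_or] at hn
    apply hu
    unfold push
    rw [if_neg hn.1, if_neg hn.2]
    have : u ∉ supp x := fun h' => by
      have := h h'
      rw [Finset.mem_insert] at this
      tauto
    rw [mem_supp, not_not] at this
    rw [this]; ring
  refine equiv_of_deform (fun x hx => ⟨hx.1, hx.2.1, Or.inl hx.2.2⟩)
    (fun p => push σ hσ v p.1 p.2) ?_ ?_ ?_ ?_ ?_
  · exact (continuous_push hσ v).comp (by fun_prop : Continuous fun p :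
      unitInterval × (Rl (X ∪ {σ, insert v σ})) => ((p.1 : ℝ), (p.2 : V → ℝ)))
  · intro x
    funext u
    simp [push]
  · intro t x
    refine ⟨hnn t x x.2.1, by rw [sum_push]; exact x.2.2.1, ?_⟩
    rcases eq_or_lt_of_le (mu_nonneg hσ x.2.1) with h | h
    · change supp (push σ hσ v t x) ∈ _
      rw [hpush0 _ _ h.symm]
      exact x.2.2.2
    · exact hX' _ (Or.inr (Or.inr rfl)) _ (hsupp _ _ (hpos x x.2 h))
  · intro x
    rcases eq_or_lt_of_le (mu_nonneg hσ x.2.1) with h | h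
    · change push σ hσ v _ x ∈ _
      rw [hpush0 _ _ h.symm]
      exact hzero x x.2 h.symm
    · refine ⟨hnn 1 x x.2.1, by rw [sum_push]; exact x.2.2.1, ?_⟩
      obtain ⟨w, hw, hw'⟩ := exists_mu hσ (x : V → ℝ)
      refine hX _ (hf w hw) _ ?_
      intro u hu
      rw [Finset.mem_erase]
      refine ⟨?_, hsupp _ _ (hpos x x.2 h) hu⟩
      rintro rfl
      rw [mem_supp] at hu
      apply hu
      have hne : u ≠ v := fun h' => hv (h' ▸ hw)
      unfold push
      rw [if_pos hw, if_neg hne, hw']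
      simp
  · intro x hx
    have : mu σ hσ x = 0 := by
      by_contra h
      have h' : 0 < mu σ hσ x := lt_of_le_of_ne (mu_nonneg hσ x.2.1) (Ne.symm h)
      exact hσX (hX _ hx.2.2 _ ((mu_pos_iff hσ x.2.1).1 h'))
    exact hpush0 _ _ this

end Pool.Agent.Q19.WS
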