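import Pool.Agent.Q19.WS.Real

/-!
# Critical simplices of one dimension
-/

namespace Pool.Agent.Q19.WS

variable {V : Type*} [DecidableEq V]

/-- elementary expansions of `X₀` -/
inductive Exp (X₀ : Set (Finset V)) : Set (Finset V) → Prop
  | refl : Exp X₀ X₀
  | step (X : Set (Finset V)) (σ : Finset V) (v : V) : Exp X₀ X → v ∉ σ → σ ∉ X →
      (∀ w ∈ σ, (insert v σ).erase w ∈ X) → Exp X₀ (X ∪ {σ, insert v σ})

theorem Exp.down {X₀ X : Set (Finset V)} (h0 : Down X₀) (h : Exp X₀ X) : Down X := by
  induction h with
  | refl => exact h0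
  | step X σ v _ hv _ hf ih => exact ih.pair hv hf

theorem Exp.subset {X₀ X : Set (Finset V)} (h : Exp X₀ X) : X₀ ⊆ X := by
  induction h with
  | refl => exact subset_rfl
  | step X σ v _ _ _ _ ih => exact ih.trans Set.subset_union_left

theorem Exp.union {X₀ X : Set (Finset V)} (h : Exp X₀ X) (Z : Set (Finset V))
    (hZ : ∀ τ ∈ Z, τ ∉ X) : Exp (X₀ ∪ Z) (X ∪ Z) := by
  induction h with
  | refl => exact Exp.refl
  | step X σ v _ hv hσ hf ih =>
    have h1 := ih fun τ hτ h' => hZ τ hτ (Or.inl h')
    have h2 := Exp.step _ σ v h1 hv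
      (by
        rintro (h' | h')
        · exact hσ h'
        · exact hZ σ h' (Or.inr (Or.inl rfl))) (fun w hw => Or.inl (hf w hw))
    have e : X ∪ {σ, insert v σ} ∪ Z = X ∪ Z ∪ {σ, insert v σ} := by
      ext τ
      simp only [Set.mem_union]
      tauto
    rw [e]
    exact h2

/-- The complex is obtained by elementary expansions from the union of a collapsible complex `C` and
simplices with `N` vertices, whose facets are in `C`. -/
theorem Bld.reorg {N : ℕ} (hN : 1 ≤ N) {K : Set (Finset V)} (h : Bld (fun m => m = N) K) :
    K = ∅ ∨ ∃ C F : Set (Finset V), Bld (fun _ => False) C ∧ C.Nonempty ∧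
      (∀ σ ∈ F, σ.card = N ∧ σ ∉ C ∧ ∀ w ∈ σ, σ.erase w ∈ C) ∧ Exp (C ∪ F) K ∧
      (∀ τ ∈ K, τ.card < N → τ ∈ C) ∧ C ∪ F ⊆ K := by
  induction h with
  | nil => exact Or.inl rfl
  | pair K σ v hK hv hσ hf ih =>
    right
    rcases ih with rfl | ⟨C, F, hC, hCne, hF, hE, hlow, hsub⟩
    · have hs : σ = ∅ := by
        rw [Finset.eq_empty_iff_forall_notMem]
        intro w hw
        exact Set.notMem_empty _ (hf w hw)
      subst hs
      refine ⟨∅ ∪ {∅, insert v ∅}, ∅, Bld.pair ∅ ∅ v Bld.nil hv hσ hf, ⟨∅, Or.inr (Or.inl rfl)⟩,
        ?_, ?_, ?_, ?_⟩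
      · intro σ hσ; exact absurd hσ (Set.notMem_empty _)
      · rw [Set.union_empty]; exact Exp.refl
      · intro τ hτ _; exact hτ
      · rw [Set.union_empty]
    · have hCK : C ⊆ K := fun τ hτ => hsub (Or.inl hτ)
      have hv' : insert v σ ∉ K := insert_notMem_of_down hK.down hσ v
      by_cases hcard : σ.card < N
      · refine ⟨C ∪ {σ, insert v σ}, F, Bld.pair C σ v hC hv (fun h' => hσ (hCK h')) ?_,
          hCne.mono Set.subset_union_left, ?_, ?_, ?_, ?_⟩
        · intro w hw
          refine hlow _ (hf w hw) ?_
          have h1 : w ∈ insert v σ := Finset.mem_insert_of_mem hw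
          rw [Finset.card_erase_of_mem h1, Finset.card_insert_of_notMem hv]
          omega
        · intro τ hτ
          obtain ⟨h1, h2, h3⟩ := hF τ hτ
          have hτK : τ ∈ K := hsub (Or.inr hτ)
          refine ⟨h1, ?_, fun w hw => Or.inl (h3 w hw)⟩
          rintro (h' | h' | h')
          · exact h2 h'
          · exact hσ (h' ▸ hτK)
          · rw [Set.mem_singleton_iff] at h'
            exact hv' (h' ▸ hτK)
        · have := hE.union {σ, insert v σ} (by
            rintro τ (hτ | hτ)
            · rw [hτ]; exact hσ
            · rw [Set.mem_singleton_iff] at hτ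
              rw [hτ]; exact hv')
          have e : C ∪ {σ, insert v σ} ∪ F = C ∪ F ∪ {σ, insert v σ} := by
            ext τ
            simp only [Set.mem_union]
            tauto
          rw [e]
          exact this
        · rintro τ (hτ | hτ) hc
          · exact Or.inl (hlow τ hτ hc)
          · exact Or.inr hτ
        · rintro τ ((hτ | hτ) | hτ)
          · exact Or.inl (hCK hτ)
          · exact Or.inr hτ
          · exact Or.inl (hsub (Or.inr hτ))
      · refine ⟨C, F, hC, hCne, hF, Exp.step K σ v hE hv hσ hf, ?_, ?_⟩
        · rintro τ (hτ | hτ | hτ) hc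
          · exact hlow τ hτ hc
          · rw [hτ] at hc; exact absurd hc hcard
          · rw [Set.mem_singleton_iff] at hτ
            rw [hτ, Finset.card_insert_of_notMem hv] at hc
            omega
        · exact hsub.trans Set.subset_union_left
  | crit K σ hK hσ hc hf ih =>
    right
    rcases ih with rfl | ⟨C, F, hC, hCne, hF, hE, hlow, hsub⟩
    · exfalso
      have : σ.Nonempty := by
        rw [← Finset.card_pos, hc]; exact hN
      obtain ⟨w, hw⟩ := this
      exact Set.notMem_empty _ (hf w hw)
    · refine ⟨C, F ∪ {σ}, hC, hCne, ?_, ?_, ?_, ?_⟩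
      · rintro τ (hτ | hτ)
        · exact hF τ hτ
        · rw [Set.mem_singleton_iff] at hτ
          subst hτ
          refine ⟨hc, fun h' => hσ (hsub (Or.inl h')), ?_⟩
          intro w hw
          refine hlow _ (hf w hw) ?_
          rw [Finset.card_erase_of_mem hw, hc]
          omega
      · rw [← Set.union_assoc]
        refine hE.union {σ} ?_
        intro τ hτ
        rw [Set.mem_singleton_iff] at hτ
        rw [hτ]; exact hσ
      · rintro τ (hτ | hτ) hc'
        · exact hlow τ hτ hc'
        · rw [Set.mem_singleton_iff] at hτ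
          rw [hτ] at hc'
          exact absurd hc (by omega)
      · rintro τ (hτ | hτ | hτ)
        · exact Or.inl (hsub (Or.inl hτ))
        · exact Or.inl (hsub (Or.inr hτ))
        · exact Or.inr hτ

variable [Fintype V]

theorem empty_mem {X : Set (Finset V)} (hX : Down X) (hne : X.Nonempty) : ∅ ∈ X := by
  obtain ⟨τ, hτ⟩ := hne
  exact hX τ hτ ∅ (Finset.empty_subset τ)

theorem Exp.equiv {X₀ X : Set (Finset V)} (h0 : Down X₀) (hne : X₀.Nonempty) (h : Exp X₀ X) :
    Nonempty (ContinuousMap.HomotopyEquiv (Rl X) (Rl X₀)) := by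
  induction h with
  | refl => exact ⟨ContinuousMap.HomotopyEquiv.refl _⟩
  | step X σ v hX hv hσ hf ih =>
    obtain ⟨e⟩ := ih
    have hs : σ.Nonempty := by
      rw [Finset.nonempty_iff_ne_empty]
      rintro rfl
      exact hσ (hX.subset (empty_mem h0 hne))
    obtain ⟨e'⟩ := collapse (hX.down h0) hs hv hσ hf
    exact ⟨e'.trans e⟩

/-- Collapsible complexes are contractible. -/
theorem Bld.contractible {C : Set (Finset V)} (h : Bld (fun _ => False) C) (hne : C.Nonempty) :
    ContractibleSpace (Rl C) := by
  induction h with
  | nil => exact absurd hne Set.not_nonempty_empty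
  | pair X σ v hX hv hσ hf ih =>
    by_cases hXne : X.Nonempty
    · have hs : σ.Nonempty := by
        rw [Finset.nonempty_iff_ne_empty]
        rintro rfl
        exact hσ (empty_mem hX.down hXne)
      obtain ⟨e⟩ := collapse hX.down hs hv hσ hf
      have := ih hXne
      exact e.contractibleSpace
    · rw [Set.not_nonempty_iff_eq_empty] at hXne
      subst hXne
      have hs : σ = ∅ := by
        rw [Finset.eq_empty_iff_forall_notMem]
        intro w hw
        exact Set.notMem_empty _ (hf w hw)
      subst hs
      have hval : ∀ x ∈ Rl (∅ ∪ {∅, insert v ∅} : Set (Finset V)), x = fun u => if u = v then 1 else 0 := by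
        rintro x ⟨h0, h1, h2⟩
        have hsub : supp x ⊆ {v} := by
          rcases h2 with h | h | h
          · exact absurd h (Set.notMem_empty _)
          · rw [h]; exact Finset.empty_subset _
          · rw [Set.mem_singleton_iff] at h
            rw [h]; rfl
        have hz : ∀ u, u ≠ v → x u = 0 := by
          intro u hu
          by_contra hc
          have := hsub (mem_supp.2 hc)
          rw [Finset.mem_singleton] at this
          exact hu this
        funext u
        split_ifs with hu
        · subst hu
          rw [← h1]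
          exact (Finset.sum_eq_single u (fun b _ hb => hz b hb) (fun h => absurd (Finset.mem_univ _) h)).symm
        · exact hz u hu
      have : Unique (Rl (∅ ∪ {∅, insert v ∅} : Set (Finset V))) := by
        refine ⟨⟨⟨fun u => if u = v then 1 else 0, ?_, ?_, ?_⟩⟩, ?_⟩
        · intro u
          dsimp only
          split_ifs
          · exact zero_le_one
          · exact le_rfl
        · simp
        · right; right
          rw [Set.mem_singleton_iff]
          ext u
          rw [mem_supp]
          simp
        · intro x
          exact Subtype.ext (hval x x.2)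
      infer_instance
  | crit X σ _ _ hc _ _ => exact absurd hc not_false

end Pool.Agent.Q19.WS
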