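import Pool.Agent.Q19.WS.Chain

/-!
# Intervals of semimodular lattices
-/

namespace Pool.Agent.Q19.WS

variable {P : Type*} [Lattice P] [DecidableEq P] [Finite P]

omit [DecidableEq P] in
theorem rk_lt (rk : P → ℕ) (hr : ∀ u v : P, u ⋖ v → rk v = rk u + 1) :
    ∀ u v : P, u < v → rk u < rk v := by
  intro u
  induction u using WellFoundedGT.induction with
  | _ u ih =>
    intro v huv
    obtain ⟨w, hw, hwv⟩ := exists_covBy_le_of_lt huv
    rcases eq_or_lt_of_le hwv with rfl | h
    · have := hr u w hw; omega
    · have h1 := ih w hw.lt v h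
      have h2 := hr u w hw
      omega

/-- The open interval `(x, y)` without some elements `u` with `u ⊔ a = y`, `a` an atom of `[x, y]`. -/
theorem Bld.semimodular (rk : P → ℕ) (hr : ∀ u v : P, u ⋖ v → rk v = rk u + 1)
    (hs : ∀ x a u : P, x ⋖ a → x ≤ u → ¬ a ≤ u → u ⋖ u ⊔ a) :
    ∀ (n : ℕ) (x y a : P) (E : Set P), rk y = rk x + n + 1 → x ⋖ a → a ≤ y →
      (∀ u ∈ E, u ⊔ a = y) → Bld (fun m => m = n) (Ch (Set.Ioo x y \ E)) := by
  intro n
  induction n using Nat.strong_induction_on with
  | _ n ih =>
    intro x y a E hrk hxa hay hE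
    rcases eq_or_lt_of_le hay with rfl | hlt
    · have e : Set.Ioo x a \ E = ∅ := by
        rw [Set.eq_empty_iff_forall_notMem]
        rintro u ⟨⟨h1, h2⟩, _⟩
        exact hxa.2 h1 h2
      rw [e]
      refine Bld.chEmpty ?_
      have := hr x a hxa
      omega
    · have hfin : ∀ S : Set P, S.Finite := fun S => S.toFinite
      have hR : Bld (fun m => m = n) (Ch {u ∈ Set.Ioo x y | u ⊔ a ≠ y}) := by
        refine Bld.closure (hfin _) (fun u => u ⊔ a) ?_ (fun u _ => le_sup_left) ?_ ?_ ?_
        · rintro u ⟨⟨h1, h2⟩, h3⟩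
          refine ⟨⟨h1.trans_le le_sup_left, lt_of_le_of_ne (sup_le h2.le hay) h3⟩, ?_⟩
          rw [sup_assoc, sup_idem]; exact h3
        · intro u _ v _ huv
          exact sup_le_sup_right huv a
        · intro u _
          change (u ⊔ a) ⊔ a = u ⊔ a
          rw [sup_assoc, sup_idem]
        · refine Bld.cone (hfin _) (x := a) ⟨⟨⟨hxa.lt, hlt⟩, ?_⟩, sup_idem a⟩ ?_
          · rw [sup_idem]; exact hlt.ne
          · intro u hu
            right
            rw [← hu.2]
            exact le_sup_right
      have key : ∀ G : Set P, G.Finite → G ⊆ {u ∈ Set.Ioo x y \ E | u ⊔ a = y} →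
          Bld (fun m => m = n) (Ch ({u ∈ Set.Ioo x y | u ⊔ a ≠ y} ∪ G)) := by
        intro G hG
        induction G, hG using Set.Finite.induction_on with
        | empty => intro _; rw [Set.union_empty]; exact hR
        | @insert u G hu _ ihG =>
          intro hsub
          have huG := hsub (Set.mem_insert u G)
          obtain ⟨⟨⟨hxu, huy⟩, _⟩, hua⟩ := huG
          have hcov : ∀ z : P, x < z → z < y → z ⊔ a = y → z ⋖ y := by
            intro z hz hzy hza
            have hna : ¬ a ≤ z := by
              intro h
              rw [sup_eq_left.2 h] at hza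
              exact hzy.ne hza
            have := hs x a z hxa hz.le hna
            rwa [hza] at this
          have huc : u ⋖ y := hcov u hxu huy hua
          rw [Set.union_insert]
          have h1 := hr u y huc
          have h2 := rk_lt rk hr x u hxu
          obtain ⟨m, rfl⟩ : ∃ m, n = m + 1 := ⟨n - 1, by omega⟩
          obtain ⟨b, hb, hbu⟩ := exists_covBy_le_of_lt hxu
          refine Bld.add (C₁ := fun k => k = m) (C₂ := fun k => k = 0) ?_
            (ihG fun z hz => hsub (Set.mem_insert_of_mem u hz)) ?_ ?_ ?_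
          · rintro (h | h)
            · exact h.2 hua
            · exact hu h
          · have e : {z ∈ {u ∈ Set.Ioo x y | u ⊔ a ≠ y} ∪ G | z < u} = Set.Ioo x u \ ∅ := by
              ext z
              constructor
              · rintro ⟨hz | hz, hzu⟩
                · exact ⟨⟨hz.1.1, hzu⟩, Set.notMem_empty _⟩
                · exact ⟨⟨(hsub (Set.mem_insert_of_mem u hz)).1.1.1, hzu⟩, Set.notMem_empty _⟩
              · rintro ⟨⟨hz, hzu⟩, _⟩
                refine ⟨Or.inl ⟨⟨hz, hzu.trans huy⟩, ?_⟩, hzu⟩
                intro hza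
                exact (hcov z hz (hzu.trans huy) hza).2 hzu huy
            rw [e]
            exact ih m (by omega) x u b ∅ (by omega) hb hbu
              (fun v hv => absurd hv (Set.notMem_empty _))
          · have e : {z ∈ {u ∈ Set.Ioo x y | u ⊔ a ≠ y} ∪ G | u < z} = ∅ := by
              rw [Set.eq_empty_iff_forall_notMem]
              rintro z ⟨hz | hz, hzu⟩
              · exact huc.2 hzu hz.1.2
              · exact huc.2 hzu (hsub (Set.mem_insert_of_mem u hz)).1.1.2
            rw [e]
            exact Bld.chEmpty rfl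
          · intro k l hk hl
            omega
      have := key {u ∈ Set.Ioo x y \ E | u ⊔ a = y} (hfin _) subset_rfl
      have e : {u ∈ Set.Ioo x y | u ⊔ a ≠ y} ∪ {u ∈ Set.Ioo x y \ E | u ⊔ a = y} =
          Set.Ioo x y \ E := by
        ext z
        constructor
        · rintro (h | h)
          · exact ⟨h.1, fun h' => h.2 (hE z h')⟩
          · exact h.1
        · intro h
          by_cases hz : z ⊔ a = y
          · exact Or.inr ⟨h, hz⟩
          · exact Or.inl ⟨h.1, hz⟩
      rwa [e] at this

end Pool.Agent.Q19.WS
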